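import Mathlib

set_option autoImplicit false
set_option linter.unusedSectionVars false

namespace Pool.Agent.KneserMult

open scoped ContDiff
open Filter Topology

variable {ι : Type*} [Fintype ι]

/-- the derivative of `F` in the constant direction `v` -/
noncomputable def dd (v : ι → ℝ) (F : (ι → ℝ) → ℝ) : (ι → ℝ) → ℝ := fun a => fderiv ℝ F a v

/-- smooth functions that vanish on the nonpositive orthant -/
structure Good (F : (ι → ℝ) → ℝ) : Prop where
  smooth : ContDiff ℝ ∞ F
  zero : ∀ a : ι → ℝ, (∀ i, a i ≤ 0) → F a = 0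

theorem Good.continuous {F : (ι → ℝ) → ℝ} (h : Good F) : Continuous F := h.smooth.continuous

theorem Good.differentiable {F : (ι → ℝ) → ℝ} (h : Good F) : Differentiable ℝ F :=
  h.smooth.differentiable (by simp)

theorem Good.contDiff_fderiv {F : (ι → ℝ) → ℝ} (h : Good F) : ContDiff ℝ ∞ (fderiv ℝ F) :=
  (h.smooth.fderiv_right (m := ∞) (by simp))

theorem Good.fderiv_eq_zero {F : (ι → ℝ) → ℝ} (h : Good F) {a : ι → ℝ} (ha : ∀ i, a i ≤ 0) :
    fderiv ℝ F a = 0 := by
  -- the open orthant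
  have h1 : ∀ b : ι → ℝ, (∀ i, b i < 0) → fderiv ℝ F b = 0 := by
    intro b hb
    have hopen : IsOpen {c : ι → ℝ | ∀ i, c i < 0} := by
      simp only [Set.ofPred_forall]
      exact isOpen_iInter_of_finite fun i => isOpen_lt (continuous_apply i) continuous_const
    have h2 : F =ᶠ[𝓝 b] fun _ => 0 := by
      filter_upwards [hopen.mem_nhds hb] with c hc
      exact h.zero c fun i => (hc i).le
    rw [h2.fderiv_eq]
    simp
  have h2 : Tendsto (fun n : ℕ => fderiv ℝ F (fun i => a i - 1 / ((n : ℝ) + 1))) atTop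
      (𝓝 (fderiv ℝ F a)) := by
    have hc : Continuous (fderiv ℝ F) := h.contDiff_fderiv.continuous
    have ht : Tendsto (fun n : ℕ => (fun i => a i - 1 / ((n : ℝ) + 1) : ι → ℝ)) atTop (𝓝 a) := by
      rw [tendsto_pi_nhds]
      intro i
      have := tendsto_one_div_add_atTop_nhds_zero_nat (𝕜 := ℝ)
      simpa using (tendsto_const_nhds (x := a i)).sub this
    exact (hc.tendsto a).comp ht
  have h3 : (fun n : ℕ => fderiv ℝ F (fun i => a i - 1 / ((n : ℝ) + 1))) = fun _ => 0 := by
    funext n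
    apply h1
    intro i
    have : (0 : ℝ) < 1 / ((n : ℝ) + 1) := by positivity
    linarith [ha i]
  rw [h3] at h2
  exact (tendsto_nhds_unique tendsto_const_nhds h2).symm

theorem Good.dd {F : (ι → ℝ) → ℝ} (h : Good F) (v : ι → ℝ) : Good (dd v F) := by
  constructor
  · exact h.contDiff_fderiv.clm_apply contDiff_const
  · intro a ha
    simp [KneserMult.dd, h.fderiv_eq_zero ha]

theorem dd_comm {F : (ι → ℝ) → ℝ} (h : ContDiff ℝ ∞ F) (v w : ι → ℝ) :
    dd v (dd w F) = dd w (dd v F) := by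
  funext a
  have h1 : ContDiff ℝ ∞ (fderiv ℝ F) := h.fderiv_right (m := ∞) (by simp)
  have h2 : DifferentiableAt ℝ (fderiv ℝ F) a := (h1.differentiable (by simp)) a
  have key : ∀ u u' : ι → ℝ, fderiv ℝ (fun b => fderiv ℝ F b u) a u' =
      fderiv ℝ (fderiv ℝ F) a u' u := by
    intro u u'
    have h3 := h2.hasFDerivAt.clm_apply (hasFDerivAt_const u a)
    rw [h3.fderiv]
    simp
  have hs : IsSymmSndFDerivAt ℝ F a := by
    apply (h.contDiffAt (x := a)).isSymmSndFDerivAt
    rw [minSmoothness_of_isRCLikeNormedField]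
    exact ENat.LEInfty.out
  unfold dd
  rw [key, key]
  exact hs v w

theorem dd_sum_single [DecidableEq ι] (F : (ι → ℝ) → ℝ) (v a : ι → ℝ) :
    dd v F a = ∑ i, v i * dd (Pi.single i 1) F a := by
  unfold dd
  conv_lhs => rw [← Finset.univ_sum_single v]
  rw [map_sum]
  apply Finset.sum_congr rfl
  intro i _
  have : (Pi.single i (v i) : ι → ℝ) = v i • (Pi.single i (1 : ℝ) : ι → ℝ) := by
    rw [← Pi.single_smul]; simp
  rw [this, map_smul, smul_eq_mul]

/-- the derivative along the diagonal -/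
noncomputable def D1 (F : (ι → ℝ) → ℝ) : (ι → ℝ) → ℝ := dd (fun _ => 1) F

theorem Good.D1 {F : (ι → ℝ) → ℝ} (h : Good F) : Good (D1 F) := h.dd _

theorem Good.iterate_D1 {F : (ι → ℝ) → ℝ} (h : Good F) (j : ℕ) :
    Good (KneserMult.D1^[j] F) := by
  induction j with
  | zero => exact h
  | succ j ih =>
    rw [Function.iterate_succ_apply']
    exact ih.D1

theorem dd_iterate_D1 {F : (ι → ℝ) → ℝ} (h : Good F) (v : ι → ℝ) (j : ℕ) :
    dd v (D1^[j] F) = D1^[j] (dd v F) := by
  induction j with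
  | zero => rfl
  | succ j ih =>
    rw [Function.iterate_succ_apply', Function.iterate_succ_apply', ← ih]
    exact dd_comm (h.iterate_D1 j).smooth _ _

/-- the vector of the power functions `r_i - |z - x_i|^2` -/
def av {V : Type*} [NormedAddCommGroup V] (x : ι → V) (r : ι → ℝ) (z : V) : ι → ℝ :=
  fun i => r i - ‖z - x i‖ ^ 2

section

variable {V : Type*} [NormedAddCommGroup V] [InnerProductSpace ℝ V]

theorem continuous_av (x : ι → V) (r : ι → ℝ) : Continuous (av x r) := by
  unfold av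
  fun_prop

/-- outside a large ball all the power functions are nonpositive -/
theorem av_nonpos {x : ι → V} {r : ι → ℝ} {M ρ : ℝ} (hρ : 0 ≤ ρ) (hx : ∀ i, ‖x i‖ ≤ M)
    (hr : ∀ i, r i ≤ ρ ^ 2) {z : V} (hz : M + ρ ≤ ‖z‖) (i : ι) : av x r z i ≤ 0 := by
  unfold av
  have h1 : ρ ≤ ‖z - x i‖ := by
    have := norm_sub_norm_le z (x i)
    linarith [hx i]
  nlinarith [hr i]

theorem exists_bound_r (r : ι → ℝ) : ∃ ρ : ℝ, 0 ≤ ρ ∧ ∀ i, r i ≤ ρ ^ 2 := by
  refine ⟨1 + ∑ i, |r i|, by positivity, fun i => ?_⟩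
  have h1 : |r i| ≤ ∑ j, |r j| := Finset.single_le_sum (fun j _ => abs_nonneg (r j)) (Finset.mem_univ i)
  have h2 := le_abs_self (r i)
  have h3 := abs_nonneg (r i)
  nlinarith

theorem exists_bound_x (x : ι → V) : ∃ M : ℝ, 0 ≤ M ∧ ∀ i, ‖x i‖ ≤ M :=
  ⟨∑ i, ‖x i‖, by positivity, fun i =>
    Finset.single_le_sum (f := fun j => ‖x j‖) (fun j _ => norm_nonneg (x j)) (Finset.mem_univ i)⟩

/-- composition of a good function with the power functions has compact support -/
theorem Good.hasCompactSupport [FiniteDimensional ℝ V] {F : (ι → ℝ) → ℝ} (h : Good F) (x : ι → V)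
    (r : ι → ℝ) : HasCompactSupport fun z => F (av x r z) := by
  obtain ⟨ρ, hρ, hr⟩ := exists_bound_r r
  obtain ⟨M, hM, hx⟩ := exists_bound_x x
  have : ProperSpace V := FiniteDimensional.proper ℝ V
  apply HasCompactSupport.of_support_subset_isCompact (isCompact_closedBall (0 : V) (M + ρ))
  intro z hz
  rw [mem_closedBall_zero_iff]
  by_contra hcon
  push Not at hcon
  exact hz (h.zero _ fun i => av_nonpos hρ hx hr hcon.le i)

theorem Good.integrable [FiniteDimensional ℝ V] [MeasurableSpace V] [BorelSpace V]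
    {F : (ι → ℝ) → ℝ} (h : Good F) (x : ι → V) (r : ι → ℝ) :
    MeasureTheory.Integrable fun z => F (av x r z) :=
  (h.continuous.comp (continuous_av x r)).integrable_of_hasCompactSupport
    (h.hasCompactSupport x r)

end

end Pool.Agent.KneserMult
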