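import Pool.Agent.KneserMult.Fib

set_option autoImplicit false
set_option linter.unusedSectionVars false

namespace Pool.Agent.KneserMult

open scoped ContDiff InnerProductSpace
open Filter Topology MeasureTheory Module

variable {ι : Type*} [Fintype ι] [DecidableEq ι]
variable {V : Type*} [NormedAddCommGroup V] [InnerProductSpace ℝ V] [FiniteDimensional ℝ V]
  [MeasurableSpace V] [BorelSpace V]

/-- derivative of the functional along a path of configurations -/
theorem hasDerivAt_Int {F : (ι → ℝ) → ℝ} (hF : Good F) {x x' : ℝ → ι → V}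
    (hx : ∀ t i, HasDerivAt (fun t => x t i) (x' t i) t) (hx' : ∀ i, Continuous fun t => x' t i)
    (r : ι → ℝ) (t₀ : ℝ) :
    HasDerivAt (fun t => Int (x t) r F)
      (∫ z, ∑ i, (2 * ⟪z - x t₀ i, x' t₀ i⟫_ℝ) * dd (Pi.single i 1) F (av (x t₀) r z)) t₀ := by
  have : ProperSpace V := FiniteDimensional.proper ℝ V
  have hxc : ∀ i, Continuous fun t => x t i := fun i =>
    continuous_iff_continuousAt.2 fun t => (hx t i).continuousAt
  let G : ℝ → V → ℝ := fun t z =>
    ∑ i, (2 * ⟪z - x t i, x' t i⟫_ℝ) * dd (Pi.single i 1) F (av (x t) r z)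
  have hav : Continuous fun p : ℝ × V => av (x p.1) r p.2 := by
    unfold av
    apply continuous_pi
    intro i
    have := hxc i
    fun_prop
  have hG : Continuous fun p : ℝ × V => G p.1 p.2 := by
    apply continuous_finsetSum
    intro i _
    apply Continuous.mul
    · have h1 := hxc i
      have h2 := hx' i
      fun_prop
    · exact (hF.dd (Pi.single i 1)).continuous.comp hav
  obtain ⟨ρ, hρ, hr⟩ := exists_bound_r r
  -- bound for the positions
  obtain ⟨M, hM⟩ : ∃ M : ℝ, ∀ t ∈ Metric.closedBall t₀ 1, ∀ i, ‖x t i‖ ≤ M := by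
    have h1 : ∀ i, ∃ M : ℝ, ∀ t ∈ Metric.closedBall t₀ 1, ‖x t i‖ ≤ M := by
      intro i
      exact (isCompact_closedBall t₀ 1).exists_bound_of_continuousOn (hxc i).continuousOn
    choose M hM using h1
    refine ⟨∑ i, |M i|, fun t ht i => (hM i t ht).trans ((le_abs_self _).trans ?_)⟩
    exact Finset.single_le_sum (f := fun i => |M i|) (fun j _ => abs_nonneg (M j)) (Finset.mem_univ i)
  obtain ⟨C, hC⟩ : ∃ C : ℝ, ∀ p ∈ Metric.closedBall t₀ 1 ×ˢ Metric.closedBall (0 : V) (M + ρ),
      ‖G p.1 p.2‖ ≤ C :=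
    ((isCompact_closedBall t₀ 1).prod (isCompact_closedBall (0 : V) (M + ρ))).exists_bound_of_continuousOn
      hG.continuousOn
  have hzero : ∀ t ∈ Metric.closedBall t₀ 1, ∀ z ∉ Metric.closedBall (0 : V) (M + ρ), G t z = 0 := by
    intro t ht z hz
    rw [mem_closedBall_zero_iff, not_le] at hz
    apply Finset.sum_eq_zero
    intro i _
    rw [(hF.dd (Pi.single i 1)).zero _ fun i => av_nonpos hρ (hM t ht) hr hz.le i, mul_zero]
  refine (hasDerivAt_integral_of_dominated_loc_of_deriv_le (F := fun t z => F (av (x t) r z))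
    (F' := G) (bound := (Metric.closedBall (0 : V) (M + ρ)).indicator fun _ => C)
    (Metric.ball_mem_nhds t₀ one_pos) ?_ ?_ ?_ ?_ ?_ ?_).2
  · exact Eventually.of_forall fun t => (hF.integrable (x t) r).aestronglyMeasurable
  · exact hF.integrable _ _
  · exact (hG.comp (Continuous.prodMk_right t₀)).aestronglyMeasurable
  · refine Eventually.of_forall fun z t ht => ?_
    have ht' : t ∈ Metric.closedBall t₀ 1 := Metric.ball_subset_closedBall ht
    by_cases hz : z ∈ Metric.closedBall (0 : V) (M + ρ)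
    · rw [Set.indicator_of_mem hz]
      exact hC (t, z) ⟨ht', hz⟩
    · rw [Set.indicator_of_notMem hz, hzero t ht' z hz, norm_zero]
  · rw [integrable_indicator_iff Metric.isClosed_closedBall.measurableSet]
    exact integrableOn_const (measure_closedBall_lt_top.ne)
  · refine Eventually.of_forall fun z t _ => ?_
    have h1 : HasDerivAt (fun t => av (x t) r z) (fun i => 2 * ⟪z - x t i, x' t i⟫_ℝ) t := by
      rw [hasDerivAt_pi]
      intro i
      unfold av
      have h2 := ((hx t i).const_sub z).norm_sq.const_sub (r i)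
      convert h2 using 1
      rw [inner_neg_right]
      ring
    have h3 := (hF.differentiable (av (x t) r z)).hasFDerivAt.comp_hasDerivAt t h1
    have h4 : (fderiv ℝ F (av (x t) r z)) (fun i => 2 * ⟪z - x t i, x' t i⟫_ℝ) = G t z :=
      dd_sum_single F _ _
    rw [h4] at h3
    exact h3

theorem integrable_inner_mul {G : (ι → ℝ) → ℝ} (hG : Good G) (x : ι → V) (r : ι → ℝ) (c v : V) :
    Integrable fun z : V => (2 * ⟪z - c, v⟫_ℝ) * G (av x r z) := by
  apply Continuous.integrable_of_hasCompactSupport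
  · apply Continuous.mul
    · fun_prop
    · exact hG.continuous.comp (continuous_av x r)
  · exact (hG.hasCompactSupport x r).mul_left

/-- the integral of a directional derivative vanishes -/
theorem integral_translation {G : (ι → ℝ) → ℝ} (hG : Good G) (x : ι → V) (r : ι → ℝ) (v : V) :
    ∫ z, ∑ j, (2 * ⟪z - x j, v⟫_ℝ) * dd (Pi.single j 1) G (av x r z) = 0 := by
  have h1 := hasDerivAt_Int hG (x := fun t i => x i + t • v) (x' := fun _ _ => v)
    (fun t i => by
      have := ((hasDerivAt_id t).smul_const v).const_add (x i)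
      simpa using this) (fun i => continuous_const) r 0
  have h2 : (fun t : ℝ => Int (fun i => x i + t • v) r G) = fun _ => Int x r G := by
    funext t
    exact Int_translate (t • v) x r G
  rw [h2] at h1
  have h3 := h1.unique (hasDerivAt_const (0 : ℝ) (Int x r G))
  simpa using h3

/-- the derivative of the lifted functional in terms of the pairs of points -/
theorem hasDerivAt_Int_D1 {F : (ι → ℝ) → ℝ} (hF : Good F) {x x' : ℝ → ι → V}
    (hx : ∀ t i, HasDerivAt (fun t => x t i) (x' t i) t) (hx' : ∀ i, Continuous fun t => x' t i)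
    (r : ι → ℝ) (t₀ : ℝ) :
    HasDerivAt (fun t => Int (x t) r (D1 F))
      (-∑ i, ∑ j, ⟪x t₀ i - x t₀ j, x' t₀ i - x' t₀ j⟫_ℝ *
        Int (x t₀) r (dd (Pi.single j 1) (dd (Pi.single i 1) F))) t₀ := by
  have h1 := hasDerivAt_Int hF.D1 hx hx' r t₀
  convert h1 using 1
  set X := x t₀
  set X' := x' t₀
  -- second derivatives
  let J : ι → ι → ℝ := fun i j => Int X r (dd (Pi.single j 1) (dd (Pi.single i 1) F))
  have hJ : ∀ i j, J i j = J j i := by
    intro i j
    simp only [J]
    rw [dd_comm hF.smooth]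
  have e1 : ∀ i z, (2 * ⟪z - X i, X' i⟫_ℝ) * dd (Pi.single i 1) (D1 F) (av X r z) =
      ∑ j, ((2 * ⟪z - X j, X' i⟫_ℝ) * dd (Pi.single j 1) (dd (Pi.single i 1) F) (av X r z) +
        (2 * ⟪X j - X i, X' i⟫_ℝ) * dd (Pi.single j 1) (dd (Pi.single i 1) F) (av X r z)) := by
    intro i z
    have h2 : dd (Pi.single i 1) (D1 F) = D1 (dd (Pi.single i 1) F) :=
      dd_comm hF.smooth _ _
    rw [h2]
    have h3 : D1 (dd (Pi.single i 1) F) (av X r z) =
        ∑ j, dd (Pi.single j 1) (dd (Pi.single i 1) F) (av X r z) := by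
      have := dd_sum_single (dd (Pi.single i 1) F) (fun _ => 1) (av X r z)
      simpa [D1] using this
    rw [h3, Finset.mul_sum]
    apply Finset.sum_congr rfl
    intro j _
    have h4 : z - X i = (z - X j) + (X j - X i) := by abel
    rw [h4, inner_add_left]
    ring
  have hint : ∀ i j, Integrable fun z =>
      (2 * ⟪z - X j, X' i⟫_ℝ) * dd (Pi.single j 1) (dd (Pi.single i 1) F) (av X r z) :=
    fun i j => integrable_inner_mul ((hF.dd _).dd _) X r (X j) (X' i)
  have hint2 : ∀ i j, Integrable fun z =>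
      (2 * ⟪X j - X i, X' i⟫_ℝ) * dd (Pi.single j 1) (dd (Pi.single i 1) F) (av X r z) :=
    fun i j => (((hF.dd _).dd _).integrable X r).const_mul _
  have e2 : ∫ z, ∑ i, (2 * ⟪z - X i, X' i⟫_ℝ) * dd (Pi.single i 1) (D1 F) (av X r z) =
      ∑ i, ∑ j, (2 * ⟪X j - X i, X' i⟫_ℝ) * J i j := by
    simp_rw [e1]
    have hs : ∀ i, Integrable fun z =>
        ∑ j, ((2 * ⟪z - X j, X' i⟫_ℝ) * dd (Pi.single j 1) (dd (Pi.single i 1) F) (av X r z) +
          (2 * ⟪X j - X i, X' i⟫_ℝ) * dd (Pi.single j 1) (dd (Pi.single i 1) F) (av X r z)) :=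
      fun i => integrable_finsetSum _ fun j _ => (hint i j).add (hint2 i j)
    rw [integral_finsetSum _ fun i _ => hs i]
    apply Finset.sum_congr rfl
    intro i _
    simp_rw [Finset.sum_add_distrib]
    rw [integral_add (integrable_finsetSum _ fun j _ => hint i j)
      (integrable_finsetSum _ fun j _ => hint2 i j),
      integral_translation (hF.dd (Pi.single i 1)) X r (X' i), zero_add,
      integral_finsetSum _ fun j _ => hint2 i j]
    apply Finset.sum_congr rfl
    intro j _
    rw [integral_const_mul]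
    rfl
  rw [e2]
  -- symmetrise
  have e3 : ∑ i, ∑ j, (2 * ⟪X j - X i, X' i⟫_ℝ) * J i j =
      ∑ i, ∑ j, (2 * ⟪X i - X j, X' j⟫_ℝ) * J i j := by
    rw [Finset.sum_comm]
    apply Finset.sum_congr rfl
    intro i _
    apply Finset.sum_congr rfl
    intro j _
    rw [hJ j i]
  have e4 : ∀ i j, ⟪X i - X j, X' i - X' j⟫_ℝ * J i j =
      -((1 / 2) * ((2 * ⟪X j - X i, X' i⟫_ℝ) * J i j) +
        (1 / 2) * ((2 * ⟪X i - X j, X' j⟫_ℝ) * J i j)) := by
    intro i j
    have h5 : X j - X i = -(X i - X j) := by abel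
    rw [h5, inner_neg_left, inner_sub_right]
    ring
  have e5 : ∑ i, ∑ j, ⟪X i - X j, X' i - X' j⟫_ℝ * J i j =
      -((1 / 2) * (∑ i, ∑ j, (2 * ⟪X j - X i, X' i⟫_ℝ) * J i j) +
        (1 / 2) * ∑ i, ∑ j, (2 * ⟪X i - X j, X' j⟫_ℝ) * J i j) := by
    simp_rw [e4]
    simp only [Finset.sum_neg_distrib, Finset.sum_add_distrib, Finset.mul_sum]
  change -∑ i, ∑ j, ⟪X i - X j, X' i - X' j⟫_ℝ * J i j = _
  rw [e5, ← e3]
  ring

end Pool.Agent.KneserMult
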