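import Pool.Agent.KneserMult.Calc

set_option autoImplicit false
set_option linter.unusedSectionVars false

namespace Pool.Agent.KneserMult

open scoped ContDiff InnerProductSpace
open Filter Topology MeasureTheory Module

variable {ι : Type*} [Fintype ι]

theorem integral_plane {F : (ι → ℝ) → ℝ} (h : Good F) (a : ι → ℝ) :
    ∫ y : EuclideanSpace ℝ (Fin 2), D1 F (fun i => a i - ‖y‖ ^ 2) = Real.pi * F a := by
  have h0 := integral_fun_norm_addHaar (volume : Measure (EuclideanSpace ℝ (Fin 2)))
    (fun t : ℝ => D1 F (fun i => a i - t ^ 2))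
  rw [h0]
  have hd : ∀ t : ℝ, HasDerivAt (fun t : ℝ => F (fun i => a i - t ^ 2))
      (-2 * t * D1 F (fun i => a i - t ^ 2)) t := by
    intro t
    have h1 : HasDerivAt (fun t : ℝ => (fun i => a i - t ^ 2 : ι → ℝ)) (fun _ => -2 * t) t := by
      rw [hasDerivAt_pi]
      intro i
      have := (hasDerivAt_pow 2 t).const_sub (a i)
      simpa using this
    have h2 := (h.differentiable (fun i => a i - t ^ 2)).hasFDerivAt.comp_hasDerivAt t h1
    have h3 : (fun _ => -2 * t : ι → ℝ) = (-2 * t) • (fun _ => 1 : ι → ℝ) := by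
      funext i; simp
    rw [h3, map_smul, smul_eq_mul] at h2
    exact h2
  have hcs : HasCompactSupport (fun t : ℝ => F (fun i => a i - t ^ 2)) := by
    obtain ⟨ρ, hρ, hr⟩ := exists_bound_r a
    apply HasCompactSupport.of_support_subset_isCompact (isCompact_Icc (a := -ρ) (b := ρ))
    intro t ht
    by_contra hcon
    apply ht
    apply h.zero
    intro i
    have h1 : ρ ^ 2 ≤ t ^ 2 := by
      rw [sq_le_sq, abs_of_nonneg hρ]
      by_contra h2
      push Not at h2
      exact hcon (abs_le.1 h2.le)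
    linarith [hr i]
  have hsm : ContDiff ℝ 1 (fun t : ℝ => F (fun i => a i - t ^ 2)) := by
    have h1 : ContDiff ℝ 1 F := h.smooth.of_le ENat.LEInfty.out
    apply h1.comp
    fun_prop
  have h4 := hcs.integral_Ioi_deriv_eq hsm 0
  have h5 : ∫ t in Set.Ioi (0 : ℝ), t ^ (finrank ℝ (EuclideanSpace ℝ (Fin 2)) - 1) •
      D1 F (fun i => a i - t ^ 2) = (1 / 2) * F a := by
    have h6 : ∀ t : ℝ, t ^ (finrank ℝ (EuclideanSpace ℝ (Fin 2)) - 1) •
        D1 F (fun i => a i - t ^ 2) = (-1 / 2) * deriv (fun t : ℝ => F (fun i => a i - t ^ 2)) t := by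
      intro t
      rw [(hd t).deriv]
      simp
      ring
    simp_rw [h6]
    rw [integral_const_mul, h4]
    simp
    ring
  rw [h5]
  have h7 : (volume : Measure (EuclideanSpace ℝ (Fin 2))).real (Metric.ball 0 1) = Real.pi := by
    rw [Measure.real, EuclideanSpace.volume_ball_fin_two]
    simp [Real.pi_pos.le]
  rw [h7]
  simp
  ring

section

variable {V : Type*} [NormedAddCommGroup V] [InnerProductSpace ℝ V] [FiniteDimensional ℝ V]
  [MeasurableSpace V] [BorelSpace V]
variable {W : Type*} [NormedAddCommGroup W] [InnerProductSpace ℝ W] [FiniteDimensional ℝ W]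
  [MeasurableSpace W] [BorelSpace W]

/-- the functional: integral of `F` of the power functions -/
noncomputable def Int (x : ι → V) (r : ι → ℝ) (F : (ι → ℝ) → ℝ) : ℝ := ∫ z, F (av x r z)

/-- invariance under linear isometries -/
theorem Int_isometry (φ : V ≃ₗᵢ[ℝ] W) (x : ι → V) (r : ι → ℝ) (F : (ι → ℝ) → ℝ) :
    Int (fun i => φ (x i)) r F = Int x r F := by
  unfold Int
  have h := φ.measurePreserving.integral_comp φ.toHomeomorph.measurableEmbedding
    (fun z => F (av (fun i => φ (x i)) r z))
  rw [← h]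
  congr 1
  funext z
  congr 1
  funext i
  unfold av
  rw [← map_sub, φ.norm_map]

/-- invariance under translations -/
theorem Int_translate (c : V) (x : ι → V) (r : ι → ℝ) (F : (ι → ℝ) → ℝ) :
    Int (fun i => x i + c) r F = Int x r F := by
  unfold Int
  rw [← integral_add_right_eq_self (fun z => F (av (fun i => x i + c) r z)) c]
  congr 1
  funext z
  congr 1
  funext i
  unfold av
  rw [show z + c - (x i + c) = z - x i by abel]

/-- integration over two extra dimensions -/
theorem Int_lift {F : (ι → ℝ) → ℝ} (h : Good F) (x : ι → V) (r : ι → ℝ) :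
    Int (V := WithLp 2 (V × EuclideanSpace ℝ (Fin 2))) (fun i => WithLp.toLp 2 (x i, 0)) r (D1 F) =
      Real.pi * Int x r F := by
  unfold Int
  have h1 := (WithLp.volume_preserving_toLp V (EuclideanSpace ℝ (Fin 2))).integral_comp
    (MeasurableEquiv.toLp 2 (V × EuclideanSpace ℝ (Fin 2))).measurableEmbedding
    (fun z => D1 F (av (fun i => WithLp.toLp 2 (x i, (0 : EuclideanSpace ℝ (Fin 2)))) r z))
  rw [← h1]
  have hint : Integrable (fun w : V × EuclideanSpace ℝ (Fin 2) =>
      D1 F (av (fun i => WithLp.toLp 2 (x i, (0 : EuclideanSpace ℝ (Fin 2)))) r (WithLp.toLp 2 w)))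
      (volume.prod volume) := by
    have h2 := h.D1.integrable
      (fun i => WithLp.toLp 2 (x i, (0 : EuclideanSpace ℝ (Fin 2)))) r
    exact (WithLp.volume_preserving_toLp V (EuclideanSpace ℝ (Fin 2))).integrable_comp_of_integrable h2
  have h3 : (volume : Measure (V × EuclideanSpace ℝ (Fin 2))) = volume.prod volume := rfl
  rw [h3, integral_prod _ hint, ← integral_const_mul]
  congr 1
  funext z
  rw [← integral_plane h]
  congr 1
  funext y
  congr 1
  funext i
  unfold av
  rw [← WithLp.toLp_sub, WithLp.prod_norm_sq_eq_of_L2]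
  simp
  ring

/-- two isometric copies of the same configuration in one space -/
theorem Int_copy {S : Submodule ℝ V} (L : S →ₗᵢ[ℝ] V) (y : ι → S) (r : ι → ℝ)
    (F : (ι → ℝ) → ℝ) :
    Int (fun i => L (y i)) r F = Int (fun i => (y i : V)) r F := by
  have h1 : ∀ i, L (y i) = L.extend (y i : V) := fun i => (LinearIsometry.extend_apply L (y i)).symm
  let e : V ≃ₗᵢ[ℝ] V := L.extend.toLinearIsometryEquiv rfl
  have h2 : ∀ i, L (y i) = e (y i : V) := by
    intro i
    rw [h1]
    simp [e]
  simp_rw [h2]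
  exact Int_isometry e _ r F

/-- two isometric copies of the same configuration in one space -/
theorem Int_copy' {U : Type*} [NormedAddCommGroup U] [InnerProductSpace ℝ U]
    (A B : U →ₗᵢ[ℝ] V) (y : ι → U) (r : ι → ℝ) (F : (ι → ℝ) → ℝ) :
    Int (fun i => A (y i)) r F = Int (fun i => B (y i)) r F := by
  let e : U ≃ₗᵢ[ℝ] LinearMap.range B.toLinearMap := B.equivRange
  have h := Int_copy (A.comp e.symm.toLinearIsometry) (fun i => e (y i)) r F
  simpa [e] using h

end

/-- a finite-dimensional space embeds isometrically in a space of at least the same dimension -/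
theorem exists_isometry {V W : Type*} [NormedAddCommGroup V] [InnerProductSpace ℝ V]
    [FiniteDimensional ℝ V] [NormedAddCommGroup W] [InnerProductSpace ℝ W]
    [FiniteDimensional ℝ W] (h : finrank ℝ V ≤ finrank ℝ W) : Nonempty (V →ₗᵢ[ℝ] W) := by
  let bV := stdOrthonormalBasis ℝ V
  let bW := stdOrthonormalBasis ℝ W
  let f : V →ₗ[ℝ] W := bV.toBasis.constr ℝ (fun i => bW (Fin.castLE h i))
  have hf : Orthonormal ℝ (f ∘ bV.toBasis) := by
    have : f ∘ bV.toBasis = fun i => bW (Fin.castLE h i) := by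
      funext i
      simp [f]
    rw [this]
    exact bW.orthonormal.comp _ (Fin.castLE_injective h)
  exact ⟨f.isometryOfOrthonormal (v := bV.toBasis) (by simp) hf⟩

/-- the canonical inclusion in the product with a plane -/
noncomputable def incl (V : Type*) [NormedAddCommGroup V] [InnerProductSpace ℝ V] :
    V →ₗᵢ[ℝ] WithLp 2 (V × EuclideanSpace ℝ (Fin 2)) where
  toFun x := WithLp.toLp 2 (x, 0)
  map_add' x y := by rw [← WithLp.toLp_add]; simp
  map_smul' c x := by rw [← WithLp.toLp_smul]; simp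
  norm_map' x := by
    change ‖WithLp.toLp 2 (x, (0 : EuclideanSpace ℝ (Fin 2)))‖ = ‖x‖
    simp

/-- integration over `2 j` extra dimensions -/
theorem Int_iterate (j : ℕ) : ∀ (m : ℕ) {F : (ι → ℝ) → ℝ} (_ : Good F)
    (y : ι → EuclideanSpace ℝ (Fin m)) (r : ι → ℝ) {W : Type} [NormedAddCommGroup W]
    [InnerProductSpace ℝ W] [FiniteDimensional ℝ W] [MeasurableSpace W] [BorelSpace W]
    (_ : finrank ℝ W = m + 2 * j) (A : EuclideanSpace ℝ (Fin m) →ₗᵢ[ℝ] W),
    Int (fun i => A (y i)) r (D1^[j] F) = Real.pi ^ j * Int y r F := by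
  induction j with
  | zero =>
    intro m F hF y r W _ _ _ _ _ hW A
    have h1 : finrank ℝ (EuclideanSpace ℝ (Fin m)) = finrank ℝ W := by simp [hW]
    let e := A.toLinearIsometryEquiv h1
    have := Int_isometry e y r F
    simpa [e] using this
  | succ j ih =>
    intro m F hF y r W _ _ _ _ _ hW A
    obtain ⟨A₂⟩ : Nonempty (EuclideanSpace ℝ (Fin (m + 2)) →ₗᵢ[ℝ] W) := by
      apply exists_isometry
      simp [hW]
    obtain ⟨e₀⟩ : Nonempty (WithLp 2 (EuclideanSpace ℝ (Fin m) × EuclideanSpace ℝ (Fin 2)) →ₗᵢ[ℝ]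
        EuclideanSpace ℝ (Fin (m + 2))) := by
      apply exists_isometry
      have : finrank ℝ (WithLp 2 (EuclideanSpace ℝ (Fin m) × EuclideanSpace ℝ (Fin 2))) = m + 2 := by
        rw [(WithLp.linearEquiv 2 ℝ (EuclideanSpace ℝ (Fin m) × EuclideanSpace ℝ (Fin 2))).finrank_eq]
        simp
      simp [this]
    have hfin : finrank ℝ (WithLp 2 (EuclideanSpace ℝ (Fin m) × EuclideanSpace ℝ (Fin 2))) =
        finrank ℝ (EuclideanSpace ℝ (Fin (m + 2))) := by
      rw [(WithLp.linearEquiv 2 ℝ (EuclideanSpace ℝ (Fin m) × EuclideanSpace ℝ (Fin 2))).finrank_eq]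
      simp
    let e := e₀.toLinearIsometryEquiv hfin
    have h1 := Int_copy' A (A₂.comp (e.toLinearIsometry.comp (incl _))) y r (D1^[j + 1] F)
    rw [h1, Function.iterate_succ_apply]
    have h2 := ih (m + 2) hF.D1 (fun i => e (incl _ (y i))) r (by rw [hW]; ring) A₂
    have h3 : Int (fun i => e (incl _ (y i))) r (D1 F) = Int (fun i => incl _ (y i)) r (D1 F) :=
      Int_isometry e _ r _
    have h4 : Int (fun i => incl _ (y i)) r (D1 F) = Real.pi * Int y r F := Int_lift hF y r
    change Int (fun i => A₂ (e (incl _ (y i)))) r (D1^[j] (D1 F)) = _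
    rw [h2, h3, h4]
    ring

end Pool.Agent.KneserMult
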