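import Pool.Agent.KneserMult.Smooth

set_option autoImplicit false
set_option linter.unusedSectionVars false

namespace Pool.Agent.KneserMult

open scoped ContDiff
open Filter Topology MeasureTheory Module

variable {ι : Type*} [Fintype ι] [DecidableEq ι]

/-- the number of positive coordinates -/
noncomputable def cnt (a : ι → ℝ) : ℕ := (Finset.univ.filter fun i => 0 < a i).card

theorem cnt_eq_sum (a : ι → ℝ) : (cnt a : ℝ) = ∑ i, if 0 < a i then (1 : ℝ) else 0 := by
  unfold cnt
  rw [Finset.card_filter]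
  push_cast
  rfl

theorem min_eq_sum (m N : ℕ) :
    min (m : ℝ) (N : ℝ) = ∑ k ∈ Finset.range m, if k + 1 ≤ N then (1 : ℝ) else 0 := by
  induction m with
  | zero => simp
  | succ m ih =>
    rw [Finset.sum_range_succ, ← ih]
    split_ifs with h
    · have : (m : ℝ) + 1 ≤ N := by exact_mod_cast h
      have h3 : ((m + 1 : ℕ) : ℝ) ≤ N := by exact_mod_cast h
      have h4 : (m : ℝ) ≤ N := by linarith
      rw [min_eq_left h3, min_eq_left h4]
      push_cast
      ring
    · have h' : N ≤ m := by omega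
      have : (N : ℝ) ≤ m := by exact_mod_cast h'
      rw [min_eq_right this, min_eq_right (by push_cast; linarith)]
      ring

section

variable {V : Type*} [NormedAddCommGroup V] [InnerProductSpace ℝ V] [FiniteDimensional ℝ V]
  [MeasurableSpace V] [BorelSpace V]

theorem tendsto_Int (x : ι → V) (r : ι → ℝ) (m : ℕ) :
    Tendsto (fun k : ℕ => Int x r (comp (gap m (1 / ((k : ℝ) + 1))) (eta k))) atTop
      (𝓝 (∫ z, min (m : ℝ) (cnt (av x r z) : ℝ))) := by
  obtain ⟨ρ, hρ, hr⟩ := exists_bound_r r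
  obtain ⟨M, hM, hx⟩ := exists_bound_x x
  have : ProperSpace V := FiniteDimensional.proper ℝ V
  have hδ : ∀ k : ℕ, (0 : ℝ) < 1 / ((k : ℝ) + 1) := fun k => by positivity
  have hgood : ∀ k : ℕ, Good (comp (gap m (1 / ((k : ℝ) + 1))) (eta k) : (ι → ℝ) → ℝ) := fun k =>
    comp_good (gap_smooth (hδ k)) (eta_smooth k) (gap_zero _ _) fun t ht => eta_zero k ht
  unfold Int
  apply tendsto_integral_of_dominated_convergence
    ((Metric.closedBall (0 : V) (M + ρ)).indicator fun _ => (Fintype.card ι : ℝ))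
  · intro k
    exact ((hgood k).continuous.comp (continuous_av x r)).aestronglyMeasurable
  · rw [integrable_indicator_iff Metric.isClosed_closedBall.measurableSet]
    exact continuousOn_const.integrableOn_compact (isCompact_closedBall _ _)
  · intro k
    refine Eventually.of_forall fun z => ?_
    by_cases hz : z ∈ Metric.closedBall (0 : V) (M + ρ)
    · rw [Set.indicator_of_mem hz, Real.norm_eq_abs]
      unfold comp
      have h1 : 0 ≤ ∑ i, eta k (av x r z i) := Finset.sum_nonneg fun i _ => eta_nonneg k _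
      have h2 : ∑ i, eta k (av x r z i) ≤ Fintype.card ι := by
        calc ∑ i, eta k (av x r z i) ≤ ∑ _i : ι, (1 : ℝ) :=
              Finset.sum_le_sum fun i _ => eta_le_one k _
          _ = Fintype.card ι := by simp
      exact (gap_abs (hδ k) h1).trans h2
    · rw [Set.indicator_of_notMem hz]
      rw [mem_closedBall_zero_iff, not_le] at hz
      rw [(hgood k).zero _ fun i => av_nonpos hρ hx hr hz.le i]
      simp
  · refine Eventually.of_forall fun z => ?_
    have h1 : ∀ᶠ k : ℕ in atTop, ∀ i, eta k (av x r z i) = if 0 < av x r z i then 1 else 0 := by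
      rw [eventually_all]
      intro i
      exact eta_eventually _
    have h2 := gap_tendsto (m := (m : ℝ)) (t := (cnt (av x r z) : ℝ)) (by positivity)
      (tendsto_one_div_add_atTop_nhds_zero_nat (𝕜 := ℝ))
    refine h2.congr' ?_
    filter_upwards [h1] with k hk
    unfold comp
    rw [cnt_eq_sum, Finset.sum_congr rfl fun i _ => hk i]

end

/-- The inequality for `min m N`, deduced from the one for smooth functions. -/
theorem min_mono {V : Type*} [NormedAddCommGroup V] [InnerProductSpace ℝ V] [FiniteDimensional ℝ V]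
    [MeasurableSpace V] [BorelSpace V] {p q : ι → V} {r : ι → ℝ}
    (h : ∀ F : (ι → ℝ) → ℝ, Good F → Sub F → Int q r F ≤ Int p r F) (m : ℕ) :
    ∫ z, min (m : ℝ) (cnt (av q r z) : ℝ) ≤ ∫ z, min (m : ℝ) (cnt (av p r z) : ℝ) := by
  apply le_of_tendsto_of_tendsto' (tendsto_Int q r m) (tendsto_Int p r m)
  intro k
  have hδ : (0 : ℝ) < 1 / ((k : ℝ) + 1) := by positivity
  exact h _ (comp_good (gap_smooth hδ) (eta_smooth k) (gap_zero _ _) fun t ht => eta_zero k ht)
    (comp_sub (gap_smooth hδ) (eta_smooth k) (fun t => gap_deriv2 hδ t) (eta_mono k))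

/-- summation by parts -/
theorem abel (n : ℕ) (τ c : ℕ → ℝ) (hτ : ∀ k, k + 1 < n → τ (k + 1) ≤ τ k)
    (hc : ∀ m, m ≤ n → 0 ≤ ∑ k ∈ Finset.range m, c k) (hn : ∑ k ∈ Finset.range n, c k = 0) :
    0 ≤ ∑ k ∈ Finset.range n, τ k * c k := by
  rcases n with _ | n
  · simp
  have key : ∀ m, m ≤ n → τ m * ∑ k ∈ Finset.range (m + 1), c k ≤
      ∑ k ∈ Finset.range (m + 1), τ k * c k := by
    intro m
    induction m with
    | zero => intro _; simp
    | succ m ih =>
      intro hm
      have h1 := ih (by omega)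
      have h2 := hτ m (by omega)
      have h3 := hc (m + 1) (by omega)
      rw [Finset.sum_range_succ, Finset.sum_range_succ (fun k => τ k * c k)]
      nlinarith
  have := key n le_rfl
  rw [hn] at this
  linarith

section

variable {d : ℕ}

/-- the number of closed balls that contain `z` -/
noncomputable def cc (x : ι → EuclideanSpace ℝ (Fin d)) (ρ : ι → ℝ)
    (z : EuclideanSpace ℝ (Fin d)) : ℕ := (Finset.univ.filter fun i => dist z (x i) ≤ ρ i).card

theorem measurableSet_cc (x : ι → EuclideanSpace ℝ (Fin d)) (ρ : ι → ℝ) (k : ℕ) :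
    MeasurableSet {z | k + 1 ≤ cc x ρ z} := by
  apply measurableSet_le measurable_const
  unfold cc
  simp_rw [Finset.card_filter]
  apply Finset.measurable_sum
  intro i _
  apply Measurable.ite _ measurable_const measurable_const
  exact measurableSet_le (by fun_prop) measurable_const

theorem volume_cc (x : ι → EuclideanSpace ℝ (Fin d)) (ρ : ι → ℝ) (k : ℕ) :
    volume {z | k + 1 ≤ cc x ρ z} < ⊤ := by
  have h1 : {z | k + 1 ≤ cc x ρ z} ⊆ ⋃ i, Metric.closedBall (x i) (ρ i) := by
    intro z hz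
    have h2 : 0 < cc x ρ z := by
      have : k + 1 ≤ cc x ρ z := hz
      omega
    unfold cc at h2
    obtain ⟨i, hi⟩ := Finset.card_pos.1 h2
    rw [Finset.mem_filter] at hi
    exact Set.mem_iUnion.2 ⟨i, hi.2⟩
  refine (measure_mono h1).trans_lt ?_
  refine (measure_iUnion_le _).trans_lt ?_
  rw [tsum_fintype]
  exact ENNReal.sum_lt_top.2 fun i _ => measure_closedBall_lt_top

theorem cc_ae (x : ι → EuclideanSpace ℝ (Fin d)) {ρ : ι → ℝ} (hρ : ∀ i, 0 < ρ i) :
    ∀ᵐ z, cnt (av x (fun i => ρ i ^ 2) z) = cc x ρ z := by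
  have h1 : ∀ᵐ z : EuclideanSpace ℝ (Fin d), ∀ i, z ∉ Metric.sphere (x i) (ρ i) := by
    rw [ae_all_iff]
    intro i
    exact measure_eq_zero_iff_ae_notMem.1 (Measure.addHaar_sphere_of_ne_zero volume (x i) (hρ i).ne')
  filter_upwards [h1] with z hz
  unfold cnt cc
  congr 1
  ext i
  simp only [Finset.mem_filter, Finset.mem_univ, true_and]
  unfold av
  rw [← dist_eq_norm, sub_pos]
  have h2 : dist z (x i) ≠ ρ i := hz i
  have h3 : 0 ≤ dist z (x i) := dist_nonneg
  constructor
  · intro h
    exact le_of_lt (lt_of_pow_lt_pow_left₀ 2 (hρ i).le h)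
  · intro h
    exact pow_lt_pow_left₀ (lt_of_le_of_ne h h2) h3 (by norm_num)

theorem integral_min (x : ι → EuclideanSpace ℝ (Fin d)) {ρ : ι → ℝ} (hρ : ∀ i, 0 < ρ i) (m : ℕ) :
    ∫ z, min (m : ℝ) (cnt (av x (fun i => ρ i ^ 2) z) : ℝ) =
      ∑ k ∈ Finset.range m, (volume {z | k + 1 ≤ cc x ρ z}).toReal := by
  have h1 : ∀ᵐ z, min (m : ℝ) (cnt (av x (fun i => ρ i ^ 2) z) : ℝ) =
      ∑ k ∈ Finset.range m, {z | k + 1 ≤ cc x ρ z}.indicator (fun _ => (1 : ℝ)) z := by
    filter_upwards [cc_ae x hρ] with z hz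
    rw [hz, min_eq_sum]
    apply Finset.sum_congr rfl
    intro k _
    simp [Set.indicator_apply]
  rw [integral_congr_ae h1, integral_finsetSum]
  · apply Finset.sum_congr rfl
    intro k _
    rw [integral_indicator (measurableSet_cc x ρ k)]
    simp [Measure.real]
  · intro k _
    rw [integrable_indicator_iff (measurableSet_cc x ρ k)]
    exact integrableOn_const (volume_cc x ρ k).ne

theorem integral_cnt (x : ι → EuclideanSpace ℝ (Fin d)) {ρ : ι → ℝ} (hρ : ∀ i, 0 < ρ i) {m : ℕ}
    (hm : Fintype.card ι ≤ m) :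
    ∫ z, min (m : ℝ) (cnt (av x (fun i => ρ i ^ 2) z) : ℝ) =
      ∑ i, (volume (Metric.closedBall (0 : EuclideanSpace ℝ (Fin d)) (ρ i))).toReal := by
  have h1 : ∀ᵐ z, min (m : ℝ) (cnt (av x (fun i => ρ i ^ 2) z) : ℝ) =
      ∑ i, (Metric.closedBall (x i) (ρ i)).indicator (fun _ => (1 : ℝ)) z := by
    filter_upwards [cc_ae x hρ] with z hz
    rw [hz]
    have h2 : cc x ρ z ≤ m := (Finset.card_le_univ _).trans hm
    have h3 : (cc x ρ z : ℝ) ≤ m := by exact_mod_cast h2
    rw [min_eq_right h3]
    unfold cc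
    rw [Finset.card_filter]
    push_cast
    apply Finset.sum_congr rfl
    intro i _
    by_cases hi : dist z (x i) ≤ ρ i
    · rw [if_pos hi, Set.indicator_of_mem (Metric.mem_closedBall.2 hi)]
    · rw [if_neg hi, Set.indicator_of_notMem (fun h => hi (Metric.mem_closedBall.1 h))]
  rw [integral_congr_ae h1, integral_finsetSum]
  · apply Finset.sum_congr rfl
    intro i _
    rw [integral_indicator Metric.isClosed_closedBall.measurableSet]
    simp only [integral_const, MeasurableSet.univ, measureReal_restrict_apply, Set.univ_inter,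
      smul_eq_mul, mul_one]
    unfold Measure.real
    rw [Measure.addHaar_closedBall_center]
  · intro i _
    rw [integrable_indicator_iff Metric.isClosed_closedBall.measurableSet]
    exact integrableOn_const measure_closedBall_lt_top.ne

/-- Kneser's weighted inequality, deduced from the smooth one. -/
theorem kneser_of_smooth {n : ℕ} {p q : Fin n → EuclideanSpace ℝ (Fin d)} {ρ τ : Fin n → ℝ}
    (hρ : ∀ i, 0 < ρ i) (hτ : Antitone τ)
    (h : ∀ F : (Fin n → ℝ) → ℝ, Good F → Sub F →
      Int q (fun i => ρ i ^ 2) F ≤ Int p (fun i => ρ i ^ 2) F) :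
    ∑ k : Fin n, τ k * (volume {z | k.val + 1 ≤ cc q ρ z}).toReal ≤
      ∑ k : Fin n, τ k * (volume {z | k.val + 1 ≤ cc p ρ z}).toReal := by
  let τ' : ℕ → ℝ := fun k => if h : k < n then τ ⟨k, h⟩ else 0
  let c : ℕ → ℝ := fun k => (volume {z | k + 1 ≤ cc p ρ z}).toReal -
    (volume {z | k + 1 ≤ cc q ρ z}).toReal
  have hsum : ∀ m, ∑ k ∈ Finset.range m, c k =
      (∫ z, min (m : ℝ) (cnt (av p (fun i => ρ i ^ 2) z) : ℝ)) -
        ∫ z, min (m : ℝ) (cnt (av q (fun i => ρ i ^ 2) z) : ℝ) := by
    intro m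
    rw [integral_min p hρ, integral_min q hρ, ← Finset.sum_sub_distrib]
  have key := abel n τ' c (by
      intro k hk
      have h1 : k < n := by omega
      simp only [τ', hk, h1, dif_pos]
      exact hτ (by simp))
    (by
      intro m _
      rw [hsum, sub_nonneg]
      exact min_mono h m)
    (by
      rw [hsum, integral_cnt p hρ (by simp), integral_cnt q hρ (by simp), sub_self])
  rw [Finset.sum_range] at key
  have h2 : ∑ i : Fin n, τ' i * c i =
      ∑ k : Fin n, τ k * (volume {z | k.val + 1 ≤ cc p ρ z}).toReal -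
      ∑ k : Fin n, τ k * (volume {z | k.val + 1 ≤ cc q ρ z}).toReal := by
    rw [← Finset.sum_sub_distrib]
    apply Finset.sum_congr rfl
    intro k _
    simp only [τ', c, k.isLt, dif_pos]
    ring
  rw [h2] at key
  linarith

end

end Pool.Agent.KneserMult
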