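import Pool.Agent.KneserMult.Deriv

set_option autoImplicit false
set_option linter.unusedSectionVars false

namespace Pool.Agent.KneserMult

open scoped ContDiff InnerProductSpace
open Filter Topology MeasureTheory Module

variable {ι : Type*} [Fintype ι] [DecidableEq ι]

/-- the mixed second derivatives are nonpositive -/
def Sub (F : (ι → ℝ) → ℝ) : Prop :=
  ∀ i j, i ≠ j → ∀ a, dd (Pi.single j 1) (dd (Pi.single i 1) F) a ≤ 0

/-- sign of the functional for configurations of small dimension -/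
theorem Int_nonpos {G : (ι → ℝ) → ℝ} (hG : Good G) (hG0 : ∀ a, G a ≤ 0) {m j : ℕ} {V : Type}
    [NormedAddCommGroup V] [InnerProductSpace ℝ V] [FiniteDimensional ℝ V] [MeasurableSpace V]
    [BorelSpace V] (hV : finrank ℝ V = m + 2 * j) (x : ι → V) (r : ι → ℝ)
    (hx : finrank ℝ (vectorSpan ℝ (Set.range x)) ≤ m) :
    Int x r (D1^[j] G) ≤ 0 := by
  rcases isEmpty_or_nonempty ι with hι | ⟨⟨i₀⟩⟩
  · -- no points: the functional vanishes
    have h1 : ∀ a : ι → ℝ, (D1^[j] G) a = 0 := fun a =>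
      (hG.iterate_D1 j).zero a fun i => (hι.false i).elim
    unfold Int
    simp [h1]
  set S := vectorSpan ℝ (Set.range x) with hS
  have hmem : ∀ i, x i - x i₀ ∈ S := fun i =>
    vsub_mem_vectorSpan ℝ (Set.mem_range_self i) (Set.mem_range_self i₀)
  obtain ⟨B⟩ : Nonempty (S →ₗᵢ[ℝ] EuclideanSpace ℝ (Fin m)) := by
    apply exists_isometry
    simpa using hx
  obtain ⟨A⟩ : Nonempty (EuclideanSpace ℝ (Fin m) →ₗᵢ[ℝ] V) := by
    apply exists_isometry
    simp [hV]
  have h1 : Int x r (D1^[j] G) = Int (fun i => x i - x i₀) r (D1^[j] G) := by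
    have := Int_translate (-x i₀) x r (D1^[j] G)
    rw [← this]
    simp [sub_eq_add_neg]
  have h2 := Int_copy (A.comp B) (fun i => (⟨x i - x i₀, hmem i⟩ : S)) r (D1^[j] G)
  have h3 := Int_iterate j m hG (fun i => B ⟨x i - x i₀, hmem i⟩) r hV A
  have h4 : Int (fun i => x i - x i₀) r (D1^[j] G) =
      Real.pi ^ j * Int (fun i => B ⟨x i - x i₀, hmem i⟩) r G := by
    rw [← h3]
    exact h2.symm
  rw [h1, h4]
  have h5 : Int (fun i => B ⟨x i - x i₀, hmem i⟩) r G ≤ 0 := by
    unfold Int
    exact integral_nonpos fun z => hG0 _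
  exact mul_nonpos_of_nonneg_of_nonpos (pow_nonneg Real.pi_pos.le _) h5

/-- Monotonicity along a path whose configurations have affine dimension at most `d + 2`. -/
theorem Int_mono_path {F : (ι → ℝ) → ℝ} (hF : Good F) (hsub : Sub F) {d j : ℕ}
    {V : Type} [NormedAddCommGroup V] [InnerProductSpace ℝ V] [FiniteDimensional ℝ V]
    [MeasurableSpace V] [BorelSpace V] (hV : finrank ℝ V = d + 2 + 2 * j)
    (p q : ι → EuclideanSpace ℝ (Fin d)) (r : ι → ℝ)
    (A B : EuclideanSpace ℝ (Fin d) →ₗᵢ[ℝ] V) (a b : V) {x x' : ℝ → ι → V}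
    (hx : ∀ t i, HasDerivAt (fun t => x t i) (x' t i) t) (hx' : ∀ i, Continuous fun t => x' t i)
    {T : ℝ} (hT : 0 ≤ T) (h0 : ∀ i, x 0 i = A (p i) + a) (h1 : ∀ i, x T i = B (q i) + b)
    (hxdim : ∀ t ∈ Set.Ioo 0 T, finrank ℝ (vectorSpan ℝ (Set.range (x t))) ≤ d + 2)
    (hin : ∀ t ∈ Set.Ioo 0 T, ∀ i j, ⟪x t i - x t j, x' t i - x' t j⟫_ℝ ≤ 0) :
    Int q r F ≤ Int p r F := by
  let H : ℝ → ℝ := fun t => Int (x t) r (D1 (D1^[j] F))
  have hH := fun t => hasDerivAt_Int_D1 (hF.iterate_D1 j) hx hx' r t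
  have hanti : AntitoneOn H (Set.Icc 0 T) := by
    apply antitoneOn_of_hasDerivWithinAt_nonpos (convex_Icc _ _)
      (fun t _ => (hH t).continuousAt.continuousWithinAt)
      (fun t _ => (hH t).hasDerivWithinAt)
    intro t ht
    rw [interior_Icc] at ht
    rw [neg_nonpos]
    apply Finset.sum_nonneg
    intro i _
    apply Finset.sum_nonneg
    intro k _
    by_cases hik : i = k
    · subst hik
      simp
    apply mul_nonneg_of_nonpos_of_nonpos
    · exact hin t ht i k
    · rw [dd_iterate_D1 hF, dd_iterate_D1 (hF.dd _)]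
      exact Int_nonpos ((hF.dd _).dd _) (hsub i k hik) hV (x t) r (hxdim t ht)
  have e0 : H 0 = Real.pi ^ (j + 1) * Int p r F := by
    have h2 := Int_iterate (j + 1) d hF p r (W := V) (by rw [hV]; ring) A
    rw [Function.iterate_succ_apply'] at h2
    rw [← h2, ← Int_translate a (fun i => A (p i))]
    have : x 0 = fun i => A (p i) + a := funext h0
    simp [H, this]
  have e1 : H T = Real.pi ^ (j + 1) * Int q r F := by
    have h2 := Int_iterate (j + 1) d hF q r (W := V) (by rw [hV]; ring) B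
    rw [Function.iterate_succ_apply'] at h2
    rw [← h2, ← Int_translate b (fun i => B (q i))]
    have : x T = fun i => B (q i) + b := funext h1
    simp [H, this]
  have h2 := hanti (Set.left_mem_Icc.2 hT) (Set.right_mem_Icc.2 hT) hT
  rw [e0, e1] at h2
  exact le_of_mul_le_mul_left h2 (pow_pos Real.pi_pos _)

/-- The monotonicity theorem for smooth functions with nonpositive mixed derivatives. -/
theorem Int_mono {F : (ι → ℝ) → ℝ} (hF : Good F) (hsub : Sub F) {d : ℕ}
    (p q : ι → EuclideanSpace ℝ (Fin d)) (r : ι → ℝ)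
    (hpq : ∀ i j, dist (q i) (q j) ≤ dist (p i) (p j))
    (hdim : Fintype.card ι ≤ d + 3 ∨
      finrank ℝ (vectorSpan ℝ (Set.range p)) + finrank ℝ (vectorSpan ℝ (Set.range q)) ≤ d + 2) :
    Int q r F ≤ Int p r F := by
  -- the big space and two orthogonal copies of `ℝ^d`
  let V := EuclideanSpace ℝ (Fin (d + 2 + 2 * d))
  have hV : finrank ℝ V = d + 2 + 2 * d := by simp [V]
  obtain ⟨A₁⟩ : Nonempty (EuclideanSpace ℝ (Fin d) →ₗᵢ[ℝ] V) := by
    apply exists_isometry
    rw [hV]
    simp
    omega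
  let R : Submodule ℝ V := LinearMap.range A₁.toLinearMap
  obtain ⟨A₂'⟩ : Nonempty (EuclideanSpace ℝ (Fin d) →ₗᵢ[ℝ] (Rᗮ : Submodule ℝ V)) := by
    apply exists_isometry
    have h1 := R.finrank_add_finrank_orthogonal
    have h2 : finrank ℝ R = d := by
      have := LinearMap.finrank_range_of_inj A₁.injective
      simpa using this
    rw [hV] at h1
    simp
    omega
  let A₂ : EuclideanSpace ℝ (Fin d) →ₗᵢ[ℝ] V := Rᗮ.subtypeₗᵢ.comp A₂'
  have horth : ∀ u v, ⟪A₁ u, A₂ v⟫_ℝ = 0 := by
    intro u v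
    have h1 : A₁ u ∈ R := ⟨u, rfl⟩
    have h2 : A₂ v ∈ Rᗮ := (A₂' v).2
    exact Submodule.inner_right_of_mem_orthogonal h1 h2
  let x : ℝ → ι → V := fun t i => Real.cos t • A₁ (p i) + Real.sin t • A₂ (q i)
  let x' : ℝ → ι → V := fun t i => (-Real.sin t) • A₁ (p i) + Real.cos t • A₂ (q i)
  have hx : ∀ t i, HasDerivAt (fun t => x t i) (x' t i) t := by
    intro t i
    exact ((Real.hasDerivAt_cos t).smul_const _).add ((Real.hasDerivAt_sin t).smul_const _)
  have hx' : ∀ i, Continuous fun t => x' t i := by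
    intro i
    simp only [x']
    fun_prop
  apply Int_mono_path hF hsub hV p q r A₁ A₂ 0 0 hx hx' (T := Real.pi / 2) (by positivity)
    (by intro i; simp [x]) (by intro i; simp [x])
  · -- dimension
    intro t _
    rcases hdim with h | h
    · rcases Nat.eq_zero_or_pos (Fintype.card ι) with h0 | hpos
      · have : IsEmpty ι := Fintype.card_eq_zero_iff.1 h0
        have h2 : Set.range (x t) = ∅ := Set.range_eq_empty _
        rw [h2, vectorSpan_empty]
        simp
      · have := finrank_vectorSpan_range_le ℝ (x t) (n := Fintype.card ι - 1) (by omega)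
        omega
    · have h1 : vectorSpan ℝ (Set.range (x t)) ≤
          (vectorSpan ℝ (Set.range p)).map A₁.toLinearMap ⊔
            (vectorSpan ℝ (Set.range q)).map A₂.toLinearMap := by
        rw [vectorSpan_def, Submodule.span_le]
        rintro _ ⟨_, ⟨i, rfl⟩, _, ⟨j, rfl⟩, rfl⟩
        have h2 : x t i -ᵥ x t j = A₁ (Real.cos t • (p i - p j)) + A₂ (Real.sin t • (q i - q j)) := by
          simp only [x, vsub_eq_sub, map_smul, map_sub, smul_sub]
          abel
        simp only [SetLike.mem_coe]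
        rw [h2]
        apply Submodule.add_mem_sup
        · exact ⟨_, Submodule.smul_mem _ _ (vsub_mem_vectorSpan ℝ (Set.mem_range_self i)
            (Set.mem_range_self j)), rfl⟩
        · exact ⟨_, Submodule.smul_mem _ _ (vsub_mem_vectorSpan ℝ (Set.mem_range_self i)
            (Set.mem_range_self j)), rfl⟩
      have h2 := Submodule.finrank_mono h1
      have h3 := Submodule.finrank_add_le_finrank_add_finrank
        ((vectorSpan ℝ (Set.range p)).map A₁.toLinearMap)
        ((vectorSpan ℝ (Set.range q)).map A₂.toLinearMap)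
      have h4 := Submodule.finrank_map_le A₁.toLinearMap (vectorSpan ℝ (Set.range p))
      have h5 := Submodule.finrank_map_le A₂.toLinearMap (vectorSpan ℝ (Set.range q))
      omega
  · -- derivative of the distances
    intro t ht i j
    have e1 : x t i - x t j = Real.cos t • A₁ (p i - p j) + Real.sin t • A₂ (q i - q j) := by
      simp only [x, map_sub, smul_sub]
      abel
    have e2 : x' t i - x' t j =
        (-Real.sin t) • A₁ (p i - p j) + Real.cos t • A₂ (q i - q j) := by
      simp only [x', map_sub, smul_sub]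
      abel
    have e3 : ⟪A₂ (q i - q j), A₁ (p i - p j)⟫_ℝ = 0 := by
      rw [real_inner_comm]; exact horth _ _
    rw [e1, e2]
    simp only [inner_add_left, inner_add_right, real_inner_smul_left, real_inner_smul_right,
      horth, e3, LinearIsometry.inner_map_map, real_inner_self_eq_norm_sq, mul_zero, add_zero,
      zero_add]
    have h1 : ‖q i - q j‖ ≤ ‖p i - p j‖ := by
      rw [← dist_eq_norm, ← dist_eq_norm]; exact hpq i j
    have h2 : ‖q i - q j‖ ^ 2 ≤ ‖p i - p j‖ ^ 2 := pow_le_pow_left₀ (norm_nonneg _) h1 2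
    have h3 : 0 ≤ Real.cos t :=
      Real.cos_nonneg_of_neg_pi_div_two_le_of_le (by linarith [ht.1, Real.pi_pos]) ht.2.le
    have h4 : 0 ≤ Real.sin t :=
      Real.sin_nonneg_of_nonneg_of_le_pi ht.1.le (by linarith [ht.2, Real.pi_pos])
    have h5 := mul_nonneg h3 h4
    nlinarith

/-- Monotonicity along a `C¹` contraction in a Euclidean space whose configurations have affine
dimension at most `d + 2`. -/
theorem Int_mono_motion {F : (ι → ℝ) → ℝ} (hF : Good F) (hsub : Sub F) {d D : ℕ}
    (p q : ι → EuclideanSpace ℝ (Fin d)) (r : ι → ℝ)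
    (A B : EuclideanSpace ℝ (Fin d) →ᵃⁱ[ℝ] EuclideanSpace ℝ (Fin D))
    (x : ℝ → ι → EuclideanSpace ℝ (Fin D)) (hx : ∀ i, ContDiff ℝ 1 fun t => x t i)
    (h0 : ∀ i, x 0 i = A (p i)) (h1 : ∀ i, x 1 i = B (q i))
    (hanti : ∀ i j, AntitoneOn (fun t => dist (x t i) (x t j)) (Set.Icc 0 1))
    (hdim : ∀ t ∈ Set.Icc (0 : ℝ) 1, finrank ℝ (vectorSpan ℝ (Set.range (x t))) ≤ d + 2) :
    Int q r F ≤ Int p r F := by
  let V := EuclideanSpace ℝ (Fin (d + 2 + 2 * D))
  have hV : finrank ℝ V = d + 2 + 2 * D := by simp [V]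
  obtain ⟨E⟩ : Nonempty (EuclideanSpace ℝ (Fin D) →ₗᵢ[ℝ] V) := by
    apply exists_isometry
    rw [hV]
    simp
    omega
  have hd : ∀ t i, HasDerivAt (fun t => E (x t i)) (E (deriv (fun t => x t i) t)) t := by
    intro t i
    have h2 : HasDerivAt (fun t => x t i) (deriv (fun t => x t i) t) t :=
      (((hx i).differentiable (by simp)) t).hasDerivAt
    exact E.toContinuousLinearMap.hasFDerivAt.comp_hasDerivAt t h2
  have hA : ∀ v, A v = A.linearIsometry v + A 0 := by
    intro v
    have := A.map_vadd 0 v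
    simpa using this
  have hB : ∀ v, B v = B.linearIsometry v + B 0 := by
    intro v
    have := B.map_vadd 0 v
    simpa using this
  apply Int_mono_path hF hsub hV p q r (E.comp A.linearIsometry) (E.comp B.linearIsometry)
    (E (A 0)) (E (B 0)) (x := fun t i => E (x t i))
    (x' := fun t i => E (deriv (fun t => x t i) t)) hd
    (fun i => E.continuous.comp ((hx i).continuous_deriv (by simp))) zero_le_one
  · intro i
    rw [h0, hA]
    simp
  · intro i
    rw [h1, hB]
    simp
  · intro t ht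
    have h2 : vectorSpan ℝ (Set.range fun i => E (x t i)) =
        (vectorSpan ℝ (Set.range (x t))).map E.toLinearMap := by
      rw [vectorSpan_def, vectorSpan_def, Submodule.map_span]
      congr 1
      ext v
      constructor
      · rintro ⟨_, ⟨i, rfl⟩, _, ⟨j, rfl⟩, rfl⟩
        exact ⟨x t i - x t j, ⟨_, ⟨i, rfl⟩, _, ⟨j, rfl⟩, rfl⟩, by simp⟩
      · rintro ⟨_, ⟨_, ⟨i, rfl⟩, _, ⟨j, rfl⟩, rfl⟩, rfl⟩
        exact ⟨_, ⟨i, rfl⟩, _, ⟨j, rfl⟩, by simp⟩
    rw [h2]
    exact (Submodule.finrank_map_le _ _).trans (hdim t ⟨ht.1.le, ht.2.le⟩)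
  · intro t ht i j
    have h2 : HasDerivAt (fun t => x t i - x t j)
        (deriv (fun t => x t i) t - deriv (fun t => x t j) t) t :=
      (((hx i).differentiable (by simp)) t).hasDerivAt.sub
        (((hx j).differentiable (by simp)) t).hasDerivAt
    have h3 := h2.norm_sq
    have h4 : AntitoneOn (fun t => ‖x t i - x t j‖ ^ 2) (Set.Icc 0 1) := by
      intro s hs t ht hst
      have := hanti i j hs ht hst
      simp only [dist_eq_norm] at this
      exact pow_le_pow_left₀ (norm_nonneg _) this 2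
    have h5 := h4.derivWithin_nonpos (x := t)
    have h6 : t ∈ Set.Icc (0 : ℝ) 1 := ⟨ht.1.le, ht.2.le⟩
    rw [h3.hasDerivWithinAt.derivWithin (uniqueDiffOn_Icc zero_lt_one t h6)] at h5
    rw [← map_sub, ← map_sub, LinearIsometry.inner_map_map]
    linarith

end Pool.Agent.KneserMult
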