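import Pool.Agent.KneserMult.Slice

set_option autoImplicit false
set_option linter.unusedSectionVars false

namespace Pool.Agent.KneserMult

open scoped ContDiff InnerProductSpace
open Filter Topology MeasureTheory Module

variable {ι : Type*} [Fintype ι] [DecidableEq ι]

section

variable {V : Type*} [NormedAddCommGroup V] [InnerProductSpace ℝ V] [FiniteDimensional ℝ V]
  [MeasurableSpace V] [BorelSpace V]

/-- the derivative in the common radius increases under dilations of the centres -/
theorem Int_D1_scale {F : (ι → ℝ) → ℝ} (hF : Good F) (hsub : Sub F) (p : ι → V) (r : ι → ℝ)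
    {c : ℝ} (hc : 1 ≤ c) : Int p r (D1 F) ≤ Int (fun i => c • p i) r (D1 F) := by
  let x : ℝ → ι → V := fun t i => t • p i
  have hx : ∀ t i, HasDerivAt (fun t => x t i) (p i) t := by
    intro t i
    simpa using (hasDerivAt_id t).smul_const (p i)
  have hH := fun t => hasDerivAt_Int_D1 hF (x := x) (x' := fun _ => p) hx
    (fun i => continuous_const) r t
  have hmono : MonotoneOn (fun t => Int (x t) r (D1 F)) (Set.Icc 1 c) := by
    apply monotoneOn_of_hasDerivWithinAt_nonneg (convex_Icc _ _)
      (fun t _ => (hH t).continuousAt.continuousWithinAt)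
      (fun t _ => (hH t).hasDerivWithinAt)
    intro t ht
    rw [interior_Icc] at ht
    rw [neg_nonneg]
    apply Finset.sum_nonpos
    intro i _
    apply Finset.sum_nonpos
    intro j _
    by_cases hij : i = j
    · subst hij
      simp
    apply mul_nonpos_of_nonneg_of_nonpos
    · have : x t i - x t j = t • (p i - p j) := by simp [x, smul_sub]
      rw [this, real_inner_smul_left, real_inner_self_eq_norm_sq]
      have : 0 ≤ t := by linarith [ht.1]
      positivity
    · unfold Int
      exact integral_nonpos fun z => hsub i j hij _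
  have := hmono (Set.left_mem_Icc.2 hc) (Set.right_mem_Icc.2 hc) hc
  simpa [x] using this

theorem hasDerivAt_av {F : (ι → ℝ) → ℝ} (hF : Good F) (x : ι → V) (z : V) (s : ℝ) :
    HasDerivAt (fun s => F (av x (fun _ => s) z)) (D1 F (av x (fun _ => s) z)) s := by
  have h1 : HasDerivAt (fun s : ℝ => av x (fun _ => s) z) (fun _ => 1) s := by
    rw [hasDerivAt_pi]
    intro i
    unfold av
    simpa using (hasDerivAt_id s).sub_const (‖z - x i‖ ^ 2)
  exact (hF.differentiable _).hasFDerivAt.comp_hasDerivAt s h1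

theorem continuous_D1_av {F : (ι → ℝ) → ℝ} (hF : Good F) (x : ι → V) :
    Continuous fun p : V × ℝ => D1 F (av x (fun _ => p.2) p.1) := by
  apply hF.D1.continuous.comp
  unfold av
  apply continuous_pi
  intro i
  fun_prop

theorem integrable_prod_D1 {F : (ι → ℝ) → ℝ} (hF : Good F) (x : ι → V) (a b : ℝ) :
    Integrable (fun p : V × ℝ => D1 F (av x (fun _ => p.2) p.1))
      ((volume : Measure V).prod (volume.restrict (Set.Ioc a b))) := by
  have hc := continuous_D1_av hF x
  obtain ⟨ρ, hρ, hr⟩ := exists_bound_r (fun _ : ι => b)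
  obtain ⟨M, hM, hx⟩ := exists_bound_x x
  have : ProperSpace V := FiniteDimensional.proper ℝ V
  have h3 : (volume : Measure V).prod (volume.restrict (Set.Ioc a b)) =
      ((volume : Measure V).prod volume).restrict (Set.univ ×ˢ Set.Ioc a b) := by
    rw [← Measure.prod_restrict, Measure.restrict_univ]
  rw [h3]
  have h4 : IntegrableOn (fun p : V × ℝ => D1 F (av x (fun _ => p.2) p.1))
      (Metric.closedBall (0 : V) (M + ρ) ×ˢ Set.Icc a b) ((volume : Measure V).prod volume) :=
    hc.continuousOn.integrableOn_compact ((isCompact_closedBall _ _).prod isCompact_Icc)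
  refine IntegrableOn.of_forall_sdiff_eq_zero h4 (MeasurableSet.univ.prod measurableSet_Ioc) ?_
  rintro ⟨z, s⟩ ⟨⟨_, hs⟩, hz⟩
  simp only [Set.mem_prod, Set.mem_Icc, not_and, not_le] at hz hs
  have h5 : z ∉ Metric.closedBall (0 : V) (M + ρ) := by
    intro h
    have := hz h hs.1.le
    linarith [hs.2]
  rw [mem_closedBall_zero_iff, not_le] at h5
  apply hF.D1.zero
  intro i
  have h6 := av_nonpos hρ hx hr h5.le i
  unfold av at h6 ⊢
  linarith [hs.2]

theorem Int_sub_Int {F : (ι → ℝ) → ℝ} (hF : Good F) (x : ι → V) {a b : ℝ} (hab : a ≤ b) :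
    Int x (fun _ => b) F - Int x (fun _ => a) F =
      ∫ s in a..b, Int x (fun _ => s) (D1 F) := by
  have hc := continuous_D1_av hF x
  have h1 : ∀ z, F (av x (fun _ => b) z) - F (av x (fun _ => a) z) =
      ∫ s in a..b, D1 F (av x (fun _ => s) z) := by
    intro z
    rw [intervalIntegral.integral_eq_sub_of_hasDerivAt (fun s _ => hasDerivAt_av hF x z s)]
    exact (hc.comp (by fun_prop : Continuous fun s : ℝ => (z, s))).intervalIntegrable _ _
  have h2 : Int x (fun _ => b) F - Int x (fun _ => a) F =
      ∫ z, ∫ s in a..b, D1 F (av x (fun _ => s) z) := by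
    unfold Int
    rw [← integral_sub (hF.integrable x _) (hF.integrable x _)]
    congr 1
    funext z
    exact h1 z
  rw [h2]
  simp_rw [intervalIntegral.integral_of_le hab]
  unfold Int
  rw [integral_integral_swap]
  exact integrable_prod_D1 hF x a b

theorem Int_diff_scale {F : (ι → ℝ) → ℝ} (hF : Good F) (hsub : Sub F) (p : ι → V)
    {a b : ℝ} (hab : a ≤ b) {c : ℝ} (hc : 1 ≤ c) :
    Int p (fun _ => b) F - Int p (fun _ => a) F ≤
      Int (fun i => c • p i) (fun _ => b) F - Int (fun i => c • p i) (fun _ => a) F := by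
  rw [Int_sub_Int hF p hab, Int_sub_Int hF _ hab]
  have hint : ∀ x : ι → V, IntervalIntegrable (fun s => Int x (fun _ => s) (D1 F)) volume a b := by
    intro x
    rw [intervalIntegrable_iff_integrableOn_Ioc_of_le hab]
    exact (integrable_prod_D1 hF x a b).integral_prod_right
  exact intervalIntegral.integral_mono_on hab (hint _) (hint _) fun s _ =>
    Int_D1_scale hF hsub p _ hc

/-- the limit form -/
theorem Vf_diff_scale' (m : ℕ) (p : ι → V) {a b : ℝ} (hab : a ≤ b) {c : ℝ} (hc : 1 ≤ c) :
    Vf m p b - Vf m p a ≤ Vf m (fun i => c • p i) b - Vf m (fun i => c • p i) a := by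
  have ht : ∀ (x : ι → V) (s : ℝ), Tendsto
      (fun k : ℕ => Int x (fun _ => s) (comp (gap m (1 / ((k : ℝ) + 1))) (eta k))) atTop
      (𝓝 (Vf m x s)) := fun x s => tendsto_Int x (fun _ => s) m
  apply le_of_tendsto_of_tendsto' ((ht p b).sub (ht p a))
    ((ht (fun i => c • p i) b).sub (ht (fun i => c • p i) a))
  intro k
  have hδ : (0 : ℝ) < 1 / ((k : ℝ) + 1) := by positivity
  exact Int_diff_scale
    (comp_good (gap_smooth hδ) (eta_smooth k) (gap_zero _ _) fun t ht => eta_zero k ht)
    (comp_sub (gap_smooth hδ) (eta_smooth k) (fun t => gap_deriv2 hδ t) (eta_mono k)) p hab hc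

end

/-- Kneser's inequality for the growth of parallel volumes, for the functional `Vf m`. -/
theorem Vf_diff_scale {d : ℕ} (m : ℕ) (p : ι → EuclideanSpace ℝ (Fin d)) {a b : ℝ} (hab : a ≤ b)
    {c : ℝ} (hc : 1 ≤ c) :
    Vf m p (c ^ 2 * b) - Vf m p (c ^ 2 * a) ≤ c ^ d * (Vf m p b - Vf m p a) := by
  have h0 : 0 < c := by linarith
  have h1 := Vf_diff_scale' m p (mul_le_mul_of_nonneg_left hab (sq_nonneg c)) hc
  rw [Vf_scale m p h0, Vf_scale m p h0] at h1
  linarith

end Pool.Agent.KneserMult
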