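import Pool.Agent.KneserMult.Limit

set_option autoImplicit false
set_option linter.unusedSectionVars false

namespace Pool.Agent.KneserMult

open scoped ContDiff InnerProductSpace
open Filter Topology MeasureTheory Module

variable {ι : Type*} [Fintype ι] [DecidableEq ι]

/-- the function `min m N` of the power functions -/
noncomputable def Gm (m : ℕ) : (ι → ℝ) → ℝ := fun a => min (m : ℝ) (cnt a : ℝ)

theorem Gm_nonneg (m : ℕ) (a : ι → ℝ) : 0 ≤ Gm m a := le_min (by positivity) (by positivity)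

theorem Gm_le (m : ℕ) (a : ι → ℝ) : Gm m a ≤ m := min_le_left _ _

theorem Gm_zero (m : ℕ) {a : ι → ℝ} (ha : ∀ i, a i ≤ 0) : Gm m a = 0 := by
  unfold Gm cnt
  have : (Finset.univ.filter fun i => 0 < a i) = ∅ := by
    ext i
    simp [ha i]
  rw [this]
  simp

theorem cnt_mono {a b : ι → ℝ} (h : ∀ i, a i ≤ b i) : cnt a ≤ cnt b := by
  unfold cnt
  apply Finset.card_le_card
  intro i
  simp only [Finset.mem_filter, Finset.mem_univ, true_and]
  exact fun hi => hi.trans_le (h i)

theorem Gm_mono (m : ℕ) {a b : ι → ℝ} (h : ∀ i, a i ≤ b i) : Gm m a ≤ Gm m b := by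
  unfold Gm
  apply min_le_min le_rfl
  exact_mod_cast cnt_mono h

theorem measurable_cnt : Measurable fun a : ι → ℝ => (cnt a : ℝ) := by
  simp_rw [cnt_eq_sum]
  apply Finset.measurable_sum
  intro i _
  apply Measurable.ite _ measurable_const measurable_const
  exact measurableSet_lt measurable_const (measurable_pi_apply i)

theorem measurable_Gm (m : ℕ) : Measurable (Gm m : (ι → ℝ) → ℝ) :=
  measurable_const.min measurable_cnt

section

variable {V : Type*} [NormedAddCommGroup V] [InnerProductSpace ℝ V] [FiniteDimensional ℝ V]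
  [MeasurableSpace V] [BorelSpace V]

theorem integrable_Gm (m : ℕ) (x : ι → V) (r : ι → ℝ) : Integrable fun z => Gm m (av x r z) := by
  obtain ⟨ρ, hρ, hr⟩ := exists_bound_r r
  obtain ⟨M, hM, hx⟩ := exists_bound_x x
  have : ProperSpace V := FiniteDimensional.proper ℝ V
  have hb : Integrable ((Metric.closedBall (0 : V) (M + ρ)).indicator fun _ => (m : ℝ)) := by
    rw [integrable_indicator_iff Metric.isClosed_closedBall.measurableSet]
    exact continuousOn_const.integrableOn_compact (isCompact_closedBall _ _)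
  refine hb.mono' ((measurable_Gm m).comp (continuous_av x r).measurable).aestronglyMeasurable ?_
  refine Eventually.of_forall fun z => ?_
  rw [Real.norm_eq_abs, abs_of_nonneg (Gm_nonneg _ _)]
  by_cases hz : z ∈ Metric.closedBall (0 : V) (M + ρ)
  · rw [Set.indicator_of_mem hz]
    exact Gm_le _ _
  · rw [Set.indicator_of_notMem hz]
    rw [mem_closedBall_zero_iff, not_le] at hz
    rw [Gm_zero m fun i => av_nonpos hρ hx hr hz.le i]

/-- the functional with equal radii -/
noncomputable def Vf (m : ℕ) (x : ι → V) (s : ℝ) : ℝ := Int x (fun _ => s) (Gm m)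

theorem Vf_nonneg (m : ℕ) (x : ι → V) (s : ℝ) : 0 ≤ Vf m x s := by
  unfold Vf Int
  exact integral_nonneg fun z => Gm_nonneg _ _

theorem Vf_mono (m : ℕ) (x : ι → V) {s t : ℝ} (h : s ≤ t) : Vf m x s ≤ Vf m x t := by
  unfold Vf Int
  apply integral_mono (integrable_Gm m x _) (integrable_Gm m x _)
  intro z
  apply Gm_mono
  intro i
  unfold av
  linarith

theorem Vf_nonpos (m : ℕ) (x : ι → V) {s : ℝ} (h : s ≤ 0) : Vf m x s = 0 := by
  unfold Vf Int
  have : ∀ z, Gm m (av x (fun _ => s) z) = 0 := by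
    intro z
    apply Gm_zero
    intro i
    unfold av
    nlinarith [sq_nonneg ‖z - x i‖]
  simp [this]

end

/-- the canonical inclusion in the product with `ℝ^e` -/
noncomputable def inclE (d e : ℕ) : EuclideanSpace ℝ (Fin d) →ₗᵢ[ℝ]
    WithLp 2 (EuclideanSpace ℝ (Fin d) × EuclideanSpace ℝ (Fin e)) where
  toFun x := WithLp.toLp 2 (x, 0)
  map_add' x y := by
    have h : ((x + y, 0) : EuclideanSpace ℝ (Fin d) × EuclideanSpace ℝ (Fin e)) =
        (x, 0) + (y, 0) := by rw [Prod.mk_add_mk, add_zero]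
    rw [h, WithLp.toLp_add]
  map_smul' c x := by
    have h : ((c • x, 0) : EuclideanSpace ℝ (Fin d) × EuclideanSpace ℝ (Fin e)) =
        c • (x, 0) := by rw [Prod.smul_mk, smul_zero]
    rw [h, WithLp.toLp_smul, RingHom.id_apply]
  norm_map' x := by
    change ‖WithLp.toLp 2 (x, (0 : EuclideanSpace ℝ (Fin e)))‖ = ‖x‖
    simp

theorem finrank_prodE (d e : ℕ) :
    finrank ℝ (WithLp 2 (EuclideanSpace ℝ (Fin d) × EuclideanSpace ℝ (Fin e))) = d + e := by
  rw [(WithLp.linearEquiv 2 ℝ (EuclideanSpace ℝ (Fin d) × EuclideanSpace ℝ (Fin e))).finrank_eq]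
  simp

theorem av_slice {d e : ℕ} (x : ι → EuclideanSpace ℝ (Fin d)) (s : ℝ)
    (z : EuclideanSpace ℝ (Fin d)) (w : EuclideanSpace ℝ (Fin e)) :
    av (fun i => inclE d e (x i)) (fun _ => s) (WithLp.toLp 2 (z, w)) =
      av x (fun _ => s - ‖w‖ ^ 2) z := by
  funext i
  unfold av
  change s - ‖WithLp.toLp 2 (z, w) - WithLp.toLp 2 (x i, (0 : EuclideanSpace ℝ (Fin e)))‖ ^ 2 = _
  rw [← WithLp.toLp_sub, WithLp.prod_norm_sq_eq_of_L2]
  simp
  ring

/-- slicing by `d`-dimensional flats -/
theorem Vf_slice {d e : ℕ} (m : ℕ) (x : ι → EuclideanSpace ℝ (Fin d)) (s : ℝ) :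
    Integrable (fun w : EuclideanSpace ℝ (Fin e) => Vf m x (s - ‖w‖ ^ 2)) ∧
    Vf m (fun i => inclE d e (x i)) s =
      ∫ w : EuclideanSpace ℝ (Fin e), Vf m x (s - ‖w‖ ^ 2) := by
  have h0 := integrable_Gm m (fun i => inclE d e (x i)) (fun _ => s)
  have h1 := (WithLp.volume_preserving_toLp (EuclideanSpace ℝ (Fin d))
    (EuclideanSpace ℝ (Fin e))).integral_comp
    (MeasurableEquiv.toLp 2 (EuclideanSpace ℝ (Fin d) × EuclideanSpace ℝ (Fin e))).measurableEmbedding
    (fun z => Gm m (av (fun i => inclE d e (x i)) (fun _ => s) z))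
  have h2 : Integrable (fun w : EuclideanSpace ℝ (Fin d) × EuclideanSpace ℝ (Fin e) =>
      Gm m (av (fun i => inclE d e (x i)) (fun _ => s) (WithLp.toLp 2 w))) volume :=
    (WithLp.volume_preserving_toLp (EuclideanSpace ℝ (Fin d))
      (EuclideanSpace ℝ (Fin e))).integrable_comp_of_integrable h0
  have h3 : (volume : Measure (EuclideanSpace ℝ (Fin d) × EuclideanSpace ℝ (Fin e))) =
      volume.prod volume := rfl
  rw [h3] at h1 h2
  have h4 : ∀ w : EuclideanSpace ℝ (Fin e), Vf m x (s - ‖w‖ ^ 2) =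
      ∫ z : EuclideanSpace ℝ (Fin d),
        Gm m (av (fun i => inclE d e (x i)) (fun _ => s) (WithLp.toLp 2 (z, w))) := by
    intro w
    unfold Vf Int
    congr 1
    funext z
    rw [av_slice]
  constructor
  · have h5 := h2.integral_prod_right
    refine h5.congr (Eventually.of_forall fun w => ?_)
    exact (h4 w).symm
  · unfold Vf at *
    unfold Int
    rw [← h1, integral_prod_symm _ h2]
    congr 1
    funext w
    exact (h4 w).symm

/-- The monotonicity in `ℝ^(d+e)`, `d ≤ e + 2`. -/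
theorem Vf_lift_mono {d e : ℕ} (hde : d ≤ e + 2) (m : ℕ) (p q : ι → EuclideanSpace ℝ (Fin d))
    (hpq : ∀ i j, dist (q i) (q j) ≤ dist (p i) (p j)) (s : ℝ) :
    Vf m (fun i => inclE d e (q i)) s ≤ Vf m (fun i => inclE d e (p i)) s := by
  obtain ⟨e₀⟩ : Nonempty (WithLp 2 (EuclideanSpace ℝ (Fin d) × EuclideanSpace ℝ (Fin e)) →ₗᵢ[ℝ]
      EuclideanSpace ℝ (Fin (d + e))) := by
    apply exists_isometry
    rw [finrank_prodE]
    simp
  have hfin : finrank ℝ (WithLp 2 (EuclideanSpace ℝ (Fin d) × EuclideanSpace ℝ (Fin e))) =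
      finrank ℝ (EuclideanSpace ℝ (Fin (d + e))) := by
    rw [finrank_prodE]
    simp
  let φ := e₀.toLinearIsometryEquiv hfin
  let J : EuclideanSpace ℝ (Fin d) →ₗᵢ[ℝ] EuclideanSpace ℝ (Fin (d + e)) :=
    φ.toLinearIsometry.comp (inclE d e)
  have hdim : ∀ x : ι → EuclideanSpace ℝ (Fin d),
      finrank ℝ (vectorSpan ℝ (Set.range fun i => J (x i))) ≤ d := by
    intro x
    have h1 : vectorSpan ℝ (Set.range fun i => J (x i)) ≤ LinearMap.range J.toLinearMap := by
      rw [vectorSpan_def, Submodule.span_le]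
      rintro _ ⟨_, ⟨i, rfl⟩, _, ⟨j, rfl⟩, rfl⟩
      exact ⟨x i - x j, by simp⟩
    have h2 := Submodule.finrank_mono h1
    have h3 := LinearMap.finrank_range_le J.toLinearMap
    rw [finrank_euclideanSpace_fin] at h3
    omega
  have key := min_mono (p := fun i => J (p i)) (q := fun i => J (q i)) (r := fun _ => s)
    (fun F hF hsub => Int_mono hF hsub (fun i => J (p i)) (fun i => J (q i)) (fun _ => s)
      (fun i j => by rw [J.dist_map, J.dist_map]; exact hpq i j)
      (Or.inr (by have := hdim p; have := hdim q; omega))) m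
  have h5 : ∀ x : ι → EuclideanSpace ℝ (Fin d), Vf m (fun i => inclE d e (x i)) s =
      ∫ z, min (m : ℝ) (cnt (av (fun i => J (x i)) (fun _ => s) z) : ℝ) := by
    intro x
    exact (Int_isometry φ (fun i => inclE d e (x i)) (fun _ => s) (Gm m)).symm
  rw [h5, h5]
  exact key

/-- scaling of the functional -/
theorem Vf_scale {d : ℕ} (m : ℕ) (x : ι → EuclideanSpace ℝ (Fin d)) {c : ℝ} (hc : 0 < c) (s : ℝ) :
    Vf m (fun i => c • x i) (c ^ 2 * s) = c ^ d * Vf m x s := by
  unfold Vf Int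
  have h1 := Measure.integral_comp_smul (volume : Measure (EuclideanSpace ℝ (Fin d)))
    (fun z => Gm m (av (fun i => c • x i) (fun _ => c ^ 2 * s) z)) c
  rw [finrank_euclideanSpace_fin] at h1
  have h2 : ∀ z : EuclideanSpace ℝ (Fin d),
      Gm m (av (fun i => c • x i) (fun _ => c ^ 2 * s) (c • z)) = Gm m (av x (fun _ => s) z) := by
    intro z
    unfold Gm cnt
    congr 4
    ext i
    unfold av
    rw [← smul_sub, norm_smul, mul_pow, Real.norm_eq_abs, sq_abs, ← mul_sub]
    have : 0 < c ^ 2 := by positivity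
    exact mul_pos_iff_of_pos_left this
  simp_rw [h2] at h1
  rw [h1, smul_eq_mul, abs_of_pos (by positivity), ← mul_assoc, mul_inv_cancel₀ (by positivity),
    one_mul]

end Pool.Agent.KneserMult
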