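import Pool.Agent.KneserMult.Mono

set_option autoImplicit false
set_option linter.unusedSectionVars false

namespace Pool.Agent.KneserMult

open scoped ContDiff
open Filter Topology MeasureTheory Module

variable {ι : Type*} [Fintype ι] [DecidableEq ι]

/-- the function `g (η(a_1) + ... + η(a_n))` -/
noncomputable def comp (g η : ℝ → ℝ) : (ι → ℝ) → ℝ := fun a => g (∑ i, η (a i))

theorem comp_good {g η : ℝ → ℝ} (hg : ContDiff ℝ ∞ g) (hη : ContDiff ℝ ∞ η) (hg0 : g 0 = 0)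
    (hη0 : ∀ t, t ≤ 0 → η t = 0) : Good (comp g η : (ι → ℝ) → ℝ) := by
  constructor
  · unfold comp
    apply hg.comp
    apply ContDiff.sum
    intro i _
    exact hη.comp (contDiff_apply ℝ ℝ i)
  · intro a ha
    unfold comp
    rw [Finset.sum_eq_zero fun i _ => hη0 _ (ha i), hg0]

theorem hasFDerivAt_sum {η : ℝ → ℝ} (hη : Differentiable ℝ η) (a : ι → ℝ) :
    HasFDerivAt (fun b : ι → ℝ => ∑ i, η (b i))
      (∑ i, (deriv η (a i)) • (ContinuousLinearMap.proj (R := ℝ) (φ := fun _ : ι => ℝ) i)) a := by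
  apply HasFDerivAt.fun_sum
  intro i _
  exact (hη (a i)).hasDerivAt.comp_hasFDerivAt a
    (ContinuousLinearMap.proj (R := ℝ) (φ := fun _ : ι => ℝ) i).hasFDerivAt

theorem dd_comp {g η : ℝ → ℝ} (hg : Differentiable ℝ g) (hη : Differentiable ℝ η) (i : ι) :
    dd (Pi.single i 1) (comp g η : (ι → ℝ) → ℝ) =
      fun a => deriv g (∑ j, η (a j)) * deriv η (a i) := by
  funext a
  have h1 := (hg (∑ j, η (a j))).hasDerivAt.comp_hasFDerivAt a (hasFDerivAt_sum hη a)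
  have h2 : HasFDerivAt (comp g η : (ι → ℝ) → ℝ) _ a := h1
  unfold dd
  rw [h2.fderiv]
  simp [Pi.single_apply]

theorem comp_sub {g η : ℝ → ℝ} (hg : ContDiff ℝ ∞ g) (hη : ContDiff ℝ ∞ η)
    (hg2 : ∀ t, deriv (deriv g) t ≤ 0) (hη1 : Monotone η) : Sub (comp g η : (ι → ℝ) → ℝ) := by
  have hgd : Differentiable ℝ g := hg.differentiable (by simp)
  have hηd : Differentiable ℝ η := hη.differentiable (by simp)
  have hg1 : ContDiff ℝ ∞ (deriv g) := (contDiff_infty_iff_deriv.1 hg).2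
  have hη1' : ContDiff ℝ ∞ (deriv η) := (contDiff_infty_iff_deriv.1 hη).2
  have hg1d : Differentiable ℝ (deriv g) := hg1.differentiable (by simp)
  have hη1d : Differentiable ℝ (deriv η) := hη1'.differentiable (by simp)
  intro i j hij a
  rw [dd_comp hgd hηd]
  have h1 := (hg1d (∑ j, η (a j))).hasDerivAt.comp_hasFDerivAt a (hasFDerivAt_sum hηd a)
  have h2 := (hη1d (a i)).hasDerivAt.comp_hasFDerivAt a
    (ContinuousLinearMap.proj (R := ℝ) (φ := fun _ : ι => ℝ) i).hasFDerivAt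
  have h3 := h1.mul h2
  have h4 : HasFDerivAt (fun a : ι → ℝ => deriv g (∑ j, η (a j)) * deriv η (a i)) _ a := h3
  unfold dd
  rw [h4.fderiv]
  have h5 : 0 ≤ deriv η (a i) := hη1.deriv_nonneg
  have h6 : 0 ≤ deriv η (a j) := hη1.deriv_nonneg
  have h7 := hg2 (∑ j, η (a j))
  simp [Pi.single_apply, hij]
  have h8 := mul_nonneg h5 h6
  nlinarith

/-- smooth concave approximation of `min m ·` -/
noncomputable def gap (m δ : ℝ) : ℝ → ℝ := fun t =>
  (t - √((t - m) ^ 2 + δ ^ 2) + √(m ^ 2 + δ ^ 2)) / 2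

theorem gap_zero (m δ : ℝ) : gap m δ 0 = 0 := by
  unfold gap
  rw [show (0 - m) ^ 2 = m ^ 2 by ring]
  ring

theorem gap_pos {m δ : ℝ} (hδ : 0 < δ) (t : ℝ) : 0 < (t - m) ^ 2 + δ ^ 2 := by positivity

theorem gap_smooth {m δ : ℝ} (hδ : 0 < δ) : ContDiff ℝ ∞ (gap m δ) := by
  unfold gap
  apply ContDiff.div_const
  apply ContDiff.add _ contDiff_const
  apply ContDiff.sub contDiff_id
  apply ContDiff.sqrt
  · fun_prop
  · intro t
    exact (gap_pos hδ t).ne'

theorem gap_deriv {m δ : ℝ} (hδ : 0 < δ) :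
    deriv (gap m δ) = fun t => (1 - (t - m) / √((t - m) ^ 2 + δ ^ 2)) / 2 := by
  funext t
  have h1 : HasDerivAt (fun t : ℝ => (t - m) ^ 2 + δ ^ 2) (2 * (t - m)) t := by
    have := (((hasDerivAt_id t).sub_const m).pow 2).add_const (δ ^ 2)
    simpa using this
  have h2 := h1.sqrt (gap_pos hδ t).ne'
  have h3 := (((hasDerivAt_id t).sub h2).add_const (√(m ^ 2 + δ ^ 2))).div_const 2
  have h4 : HasDerivAt (gap m δ) _ t := h3
  rw [h4.deriv]
  congr 2
  have h5 : 0 < √((t - m) ^ 2 + δ ^ 2) := Real.sqrt_pos.2 (gap_pos hδ t)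
  field_simp

theorem gap_deriv2 {m δ : ℝ} (hδ : 0 < δ) (t : ℝ) : deriv (deriv (gap m δ)) t ≤ 0 := by
  rw [gap_deriv hδ]
  have h1 : HasDerivAt (fun t : ℝ => (t - m) ^ 2 + δ ^ 2) (2 * (t - m)) t := by
    have := (((hasDerivAt_id t).sub_const m).pow 2).add_const (δ ^ 2)
    simpa using this
  have h2 := h1.sqrt (gap_pos hδ t).ne'
  have h5 : 0 < √((t - m) ^ 2 + δ ^ 2) := Real.sqrt_pos.2 (gap_pos hδ t)
  have h3 := ((hasDerivAt_id t).sub_const m).div h2 h5.ne'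
  have h4 := (h3.const_sub 1).div_const 2
  have h6 : HasDerivAt (fun t => (1 - (t - m) / √((t - m) ^ 2 + δ ^ 2)) / 2) _ t := h4
  rw [h6.deriv]
  have h7 : √((t - m) ^ 2 + δ ^ 2) ^ 2 = (t - m) ^ 2 + δ ^ 2 := Real.sq_sqrt (gap_pos hδ t).le
  simp only [id]
  have h8 : 1 * √((t - m) ^ 2 + δ ^ 2) -
      (t - m) * (2 * (t - m) / (2 * √((t - m) ^ 2 + δ ^ 2))) =
      δ ^ 2 / √((t - m) ^ 2 + δ ^ 2) := by
    field_simp
    rw [h7]
    ring
  rw [h8]
  have : 0 ≤ δ ^ 2 / √((t - m) ^ 2 + δ ^ 2) / √((t - m) ^ 2 + δ ^ 2) ^ 2 := by positivity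
  linarith

/-- `gap` is `1`-Lipschitz at zero -/
theorem gap_abs {m δ t : ℝ} (hδ : 0 < δ) (ht : 0 ≤ t) : |gap m δ t| ≤ t := by
  unfold gap
  have h1 : |√((t - m) ^ 2 + δ ^ 2) - √(m ^ 2 + δ ^ 2)| ≤ t := by
    have hA : 0 < √((t - m) ^ 2 + δ ^ 2) := Real.sqrt_pos.2 (gap_pos hδ t)
    have hB : 0 < √(m ^ 2 + δ ^ 2) := Real.sqrt_pos.2 (by positivity)
    have h7 : √((t - m) ^ 2 + δ ^ 2) ^ 2 = (t - m) ^ 2 + δ ^ 2 := Real.sq_sqrt (by positivity)
    have h8 : √(m ^ 2 + δ ^ 2) ^ 2 = m ^ 2 + δ ^ 2 := Real.sq_sqrt (by positivity)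
    have hA' : |m - t| ≤ √((t - m) ^ 2 + δ ^ 2) := by
      apply Real.abs_le_sqrt
      nlinarith [sq_nonneg δ]
    have hB' : |m| ≤ √(m ^ 2 + δ ^ 2) := by
      apply Real.abs_le_sqrt
      nlinarith [sq_nonneg δ]
    rw [abs_le] at hA' hB'
    rw [abs_le]
    constructor
    · by_contra hcon
      push Not at hcon
      nlinarith
    · by_contra hcon
      push Not at hcon
      nlinarith
  rw [abs_le] at h1 ⊢
  constructor <;> linarith [h1.1, h1.2]

theorem gap_tendsto {m t : ℝ} (hm : 0 ≤ m) {δ : ℕ → ℝ} (hδ : Tendsto δ atTop (𝓝 0)) :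
    Tendsto (fun k => gap m (δ k) t) atTop (𝓝 (min m t)) := by
  unfold gap
  have h1 : min m t = (t - √((t - m) ^ 2 + 0 ^ 2) + √(m ^ 2 + 0 ^ 2)) / 2 := by
    rw [show (t - m) ^ 2 + 0 ^ 2 = (t - m) ^ 2 by ring, show m ^ 2 + 0 ^ 2 = m ^ 2 by ring,
      Real.sqrt_sq_eq_abs, Real.sqrt_sq hm, min_def]
    split_ifs with h
    · rw [abs_of_nonneg (by linarith)]; ring
    · rw [abs_of_neg (by linarith)]; ring
  rw [h1]
  have h2 : Continuous fun δ : ℝ => (t - √((t - m) ^ 2 + δ ^ 2) + √(m ^ 2 + δ ^ 2)) / 2 := by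
    fun_prop
  exact (h2.tendsto 0).comp hδ

/-- smooth approximation of the indicator of the positive reals -/
noncomputable def eta (k : ℕ) : ℝ → ℝ := fun t => Real.smoothTransition ((k + 1) * t)

theorem eta_smooth (k : ℕ) : ContDiff ℝ ∞ (eta k) := by
  unfold eta
  exact Real.smoothTransition.contDiff.comp (by fun_prop)

theorem eta_mono (k : ℕ) : Monotone (eta k) := by
  intro s t h
  apply Real.smoothTransition.monotone
  have : (0 : ℝ) ≤ k + 1 := by positivity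
  exact mul_le_mul_of_nonneg_left h this

theorem eta_zero (k : ℕ) {t : ℝ} (ht : t ≤ 0) : eta k t = 0 := by
  apply Real.smoothTransition.zero_of_nonpos
  have : (0 : ℝ) ≤ k + 1 := by positivity
  exact mul_nonpos_of_nonneg_of_nonpos this ht

theorem eta_nonneg (k : ℕ) (t : ℝ) : 0 ≤ eta k t := Real.smoothTransition.nonneg _

theorem eta_le_one (k : ℕ) (t : ℝ) : eta k t ≤ 1 := Real.smoothTransition.le_one _

theorem eta_eventually (t : ℝ) : ∀ᶠ k : ℕ in atTop, eta k t = if 0 < t then 1 else 0 := by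
  by_cases ht : 0 < t
  · obtain ⟨K, hK⟩ := exists_nat_gt (1 / t)
    filter_upwards [eventually_ge_atTop K] with k hk
    rw [if_pos ht]
    apply Real.smoothTransition.one_of_one_le
    have h1 : (K : ℝ) ≤ k := by exact_mod_cast hk
    rw [div_lt_iff₀ ht] at hK
    nlinarith
  · rw [if_neg ht]
    exact Eventually.of_forall fun k => eta_zero k (not_lt.1 ht)

end Pool.Agent.KneserMult
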